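import Pool.Agent.TH915.PW.Exp

/-!
# Exponential sums of generalised polynomials of non-integral order, uniformly in the frequency

Owner helper12. The lemmas `ev_pow`, `pw_der`, `lower_small`, `root_le` and the choice of the parameters are copied from
`Pool/Agent/TH915/PW` (Smooth, Power, GenPoly) and `Pool/Agent/W147/PS/Scale` (their closures are large).
-/

set_option autoImplicit false

namespace Pool.Agent.N12.MH.Gp

open Finset Filter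
open Pool.Agent.H469R2.NK (e norm_e Cq Cq_pos)
open Pool.Agent.TH915.PW (Hy exp_bound)

theorem ev_pow (a b C : ℝ) (h : a < b) : ∀ᶠ M : ℝ in atTop, C * M ^ a ≤ M ^ b := by
  have h1 : Tendsto (fun M : ℝ => M ^ (b - a)) atTop atTop := tendsto_rpow_atTop (by linarith)
  filter_upwards [h1.eventually_ge_atTop C, eventually_gt_atTop 0] with M hM hM0
  have h2 : 0 < M ^ a := Real.rpow_pos_of_pos hM0 a
  calc C * M ^ a ≤ M ^ (b - a) * M ^ a := mul_le_mul_of_nonneg_right hM h2.le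
    _ = M ^ b := by rw [← Real.rpow_add hM0]; congr 1; ring

/-- the derivatives of `α t ^ c` -/
noncomputable def pw (α c : ℝ) (m : ℕ) (t : ℝ) : ℝ :=
  α * (∏ j ∈ range m, (c - j)) * t ^ (c - m)

lemma pw_der (α c : ℝ) (m : ℕ) (t : ℝ) (ht : 0 < t) : HasDerivAt (pw α c m) (pw α c (m + 1) t) t := by
  have h1 : HasDerivAt (fun t : ℝ => t ^ (c - m)) ((c - m) * t ^ (c - m - 1)) t :=
    Real.hasDerivAt_rpow_const (Or.inl ht.ne')
  have h2 := h1.const_mul (α * ∏ j ∈ range m, (c - j))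
  have e1 : pw α c (m + 1) t = α * (∏ j ∈ range m, (c - j)) * ((c - m) * t ^ (c - m - 1)) := by
    unfold pw
    rw [prod_range_succ]
    push_cast
    rw [show c - (m + 1 : ℝ) = c - m - 1 by ring]
    ring
  rw [e1]
  exact h2

/-- the lower terms are small -/
lemma lower_small (F : Finset ℝ) (a : ℝ → ℝ) (c : ℝ) (hF : ∀ x ∈ F, x < c) (m : ℕ) (η : ℝ)
    (hη : 0 < η) : ∀ᶠ t : ℝ in atTop, |∑ x ∈ F, pw (a x) x m t| ≤ η * t ^ (c - m) := by
  have h1 : ∀ x ∈ F, ∀ᶠ t : ℝ in atTop, |pw (a x) x m t| ≤ η / (F.card + 1) * t ^ (c - m) := by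
    intro x hx
    have hxc := hF x hx
    set D : ℝ := |a x * ∏ j ∈ range m, (x - j)| with hD
    filter_upwards [ev_pow (x - m) (c - m) (D * ((F.card + 1) / η)) (by linarith),
      eventually_gt_atTop (0 : ℝ)] with t h1 h2
    unfold pw
    rw [abs_mul, abs_of_pos (Real.rpow_pos_of_pos h2 _), ← hD]
    have h3 : (0 : ℝ) < F.card + 1 := by positivity
    rw [div_mul_eq_mul_div, le_div_iff₀ h3]
    have h4 : D * t ^ (x - m) * (F.card + 1) = η * (D * ((F.card + 1) / η) * t ^ (x - m)) := by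
      field_simp
    rw [h4]
    exact mul_le_mul_of_nonneg_left h1 hη.le
  have h2 := (Filter.eventually_all_finset F).mpr h1
  filter_upwards [h2, eventually_gt_atTop (0 : ℝ)] with t ht ht0
  calc |∑ x ∈ F, pw (a x) x m t| ≤ ∑ x ∈ F, |pw (a x) x m t| := Finset.abs_sum_le_sum_abs _ _
    _ ≤ ∑ x ∈ F, η / (F.card + 1) * t ^ (c - m) := Finset.sum_le_sum ht
    _ = F.card * (η / (F.card + 1)) * t ^ (c - m) := by
        rw [sum_const, nsmul_eq_mul]; ring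
    _ ≤ η * t ^ (c - m) := by
        apply mul_le_mul_of_nonneg_right _ (Real.rpow_nonneg ht0.le _)
        rw [mul_div_assoc', div_le_iff₀ (by positivity)]
        nlinarith

lemma root_le (x y : ℝ) (k : ℕ) (hx : 0 ≤ x) (h : x ^ (2 ^ k) ≤ y) : x ≤ y ^ ((1 : ℝ) / 2 ^ k) := by
  have h1 : x = (x ^ (2 ^ k)) ^ ((1 : ℝ) / 2 ^ k) := by
    rw [← Real.rpow_natCast, ← Real.rpow_mul hx]
    push_cast
    rw [mul_one_div_cancel (by positivity), Real.rpow_one]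
  rw [h1]
  exact Real.rpow_le_rpow (by positivity) h (by positivity)

/-- the generalised polynomial `∑ a_x t ^ x` -/
noncomputable def gp (F : Finset ℝ) (a : ℝ → ℝ) (t : ℝ) : ℝ := ∑ x ∈ F, a x * t ^ x

/-- the saving depends on the order only -/
noncomputable def ep (c : ℝ) : ℝ := min (c - ⌊c⌋₊) (1 - (c - ⌊c⌋₊)) / 2

lemma order (c : ℝ) (hc : 0 < c) (hcn : ∀ m : ℕ, c ≠ m) :
    0 < ep c ∧ ep c < c - ⌊c⌋₊ ∧ ep c < 1 - (c - ⌊c⌋₊) ∧ ep c ≤ 1 / 2 := by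
  have hk1 : (⌊c⌋₊ : ℝ) ≤ c := Nat.floor_le hc.le
  have hk1' : (⌊c⌋₊ : ℝ) < c := lt_of_le_of_ne hk1 (hcn _).symm
  have hk2 : c < ⌊c⌋₊ + 1 := Nat.lt_floor_add_one _
  have hmin0 : 0 < min (c - ⌊c⌋₊) (1 - (c - ⌊c⌋₊)) := lt_min (by linarith) (by linarith)
  have h1 := min_le_left (c - ⌊c⌋₊) (1 - (c - ⌊c⌋₊))
  have h2 := min_le_right (c - ⌊c⌋₊) (1 - (c - ⌊c⌋₊))
  unfold ep
  refine ⟨by positivity, by linarith, by linarith, by linarith⟩

/-- the derivatives of generalised polynomials -/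
lemma gp_hyp (F : Finset ℝ) (a : ℝ → ℝ) (c : ℝ) (hcF : c ∈ F) (hmax : ∀ x ∈ F, x ≤ c)
    (hac : 0 < a c) (hc : 0 < c) (hcn : ∀ m : ℕ, c ≠ m) :
    ∀ᶠ t : ℝ in atTop, t ^ (ep c - 1) ≤ ∑ x ∈ F, pw (a x) x (⌊c⌋₊ + 1) t ∧
      ∑ x ∈ F, pw (a x) x (⌊c⌋₊ + 1) t ≤ t ^ (-ep c) ∧ ∑ x ∈ F, pw (a x) x (⌊c⌋₊ + 2) t ≤ 0 ∧ 0 < t := by
  obtain ⟨hε0, hεβ, hεβ', -⟩ := order c hc hcn
  obtain ⟨ε, hε⟩ : ∃ ε : ℝ, ε = ep c := ⟨_, rfl⟩
  rw [← hε] at hε0 hεβ hεβ' ⊢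
  obtain ⟨k, hk⟩ : ∃ k : ℕ, k = ⌊c⌋₊ := ⟨_, rfl⟩
  rw [← hk] at hεβ hεβ' ⊢
  have hk1 : (k : ℝ) ≤ c := by rw [hk]; exact Nat.floor_le hc.le
  obtain ⟨β, hβ⟩ : ∃ β : ℝ, β = c - k := ⟨_, rfl⟩
  rw [← hβ] at hεβ hεβ'
  have hβ0 : 0 < β := by linarith
  have hβ1 : β < 1 := by linarith
  set G : Finset ℝ := F.erase c with hG
  have hGlt : ∀ x ∈ G, x < c := by
    intro x hx
    rw [hG, Finset.mem_erase] at hx
    exact lt_of_le_of_ne (hmax x hx.2) hx.1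
  have hsplit : ∀ m t, ∑ x ∈ F, pw (a x) x m t = pw (a c) c m t + ∑ x ∈ G, pw (a x) x m t := by
    intro m t
    rw [hG]
    exact (Finset.add_sum_erase F (fun x => pw (a x) x m t) hcF).symm
  set C : ℝ := a c * ∏ j ∈ range (k + 1), (c - j) with hC
  have hC0 : 0 < C := by
    rw [hC]
    apply mul_pos hac
    apply prod_pos
    intro j hj
    have h1 : j ≤ k := Nat.lt_succ_iff.mp (mem_range.mp hj)
    have h2 : (j : ℝ) ≤ k := by exact_mod_cast h1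
    linarith
  have e1 : ∀ t, pw (a c) c (k + 1) t = C * t ^ (c - ((k + 1 : ℕ) : ℝ)) := fun t => rfl
  have e2 : ∀ t, pw (a c) c (k + 2) t = -(C * (1 - β)) * t ^ (c - ((k + 2 : ℕ) : ℝ)) := by
    intro t
    unfold pw
    rw [prod_range_succ, hC, hβ]
    push_cast
    ring
  filter_upwards [ev_pow (ε - 1) (β - 1) (2 / C) (by linarith),
    ev_pow (β - 1) (-ε) (2 * C) (by linarith),
    lower_small G a c hGlt (k + 1) (C / 2) (by positivity),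
    lower_small G a c hGlt (k + 2) (C * (1 - β)) (mul_pos hC0 (by linarith)),
    eventually_gt_atTop (0 : ℝ)] with t h1 h2 h3 h4 h5
  have e3 : c - ((k + 1 : ℕ) : ℝ) = β - 1 := by push_cast; rw [hβ]; ring
  rw [hsplit, hsplit, e1, e2]
  rw [e3] at h3 ⊢
  have hp := Real.rpow_pos_of_pos h5 (β - 1)
  have h3' := abs_le.mp h3
  have h4' := abs_le.mp h4
  refine ⟨?_, ?_, ?_, h5⟩
  · have h6 : t ^ (ε - 1) ≤ C / 2 * t ^ (β - 1) := by
      calc t ^ (ε - 1) = C / 2 * (2 / C * t ^ (ε - 1)) := by field_simp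
        _ ≤ _ := mul_le_mul_of_nonneg_left h1 (by positivity)
    linarith [h3'.1]
  · nlinarith [h3'.2]
  · linarith [h4'.2]

set_option maxHeartbeats 4000000 in
/-- **Exponential sums of generalised polynomials**, with a power saving which depends on the order only. -/
theorem gp_sum (c : ℝ) (hc : 0 < c) (hcn : ∀ m : ℕ, c ≠ m) : ∃ η : ℝ, 0 < η ∧ ∀ (F : Finset ℝ) (a : ℝ → ℝ), c ∈ F →
    (∀ x ∈ F, x ≤ c) → 0 < a c → ∃ N₀ : ℕ, ∀ N : ℕ, N₀ ≤ N → ∀ L : ℕ, L ≤ N → ∀ θ : ℝ, (N : ℝ) ^ (-η) ≤ θ → θ ≤ (N : ℝ) ^ η →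
      ‖∑ n ∈ range L, e (θ * gp F a ((N : ℝ) + n))‖ ≤ (N : ℝ) ^ (1 - η) := by
  obtain ⟨hε, -, -, hε2⟩ := order c hc hcn
  obtain ⟨k, hkdef⟩ : ∃ k : ℕ, k = ⌊c⌋₊ := ⟨_, rfl⟩
  obtain ⟨ε, hεdef⟩ : ∃ ε : ℝ, ε = ep c := ⟨_, rfl⟩
  rw [← hεdef] at hε hε2
  set σ : ℝ := ε / (4 * (k + 1)) with hσ
  have hk0 : (0 : ℝ) ≤ k := Nat.cast_nonneg k
  have hσ0 : 0 < σ := by positivity
  have hσε : σ ≤ ε / 4 := by
    rw [hσ]
    apply div_le_div_of_nonneg_left hε.le (by norm_num)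
    linarith
  have hσk : σ * k ≤ ε / 4 := by
    have : σ * (4 * (k + 1)) = ε := by rw [hσ]; field_simp
    nlinarith
  set δ' : ℝ := σ / 2 ^ k with hδ'
  have hδ'0 : 0 < δ' := by positivity
  have h2k : (1 : ℝ) ≤ 2 ^ k := one_le_pow₀ (by norm_num)
  have hδ'σ : δ' ≤ σ := div_le_self hσ0.le h2k
  set η : ℝ := δ' / 4 with hη
  have hη0 : 0 < η := by positivity
  refine ⟨η, hη0, fun F a hcF hmax hac => ?_⟩
  set φ : ℕ → ℝ → ℝ := fun m t => ∑ x ∈ F, pw (a x) x m t with hφ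
  obtain ⟨t₁, ht₁⟩ := eventually_atTop.mp (gp_hyp F a c hcF hmax hac hc hcn)
  rw [← hεdef, ← hkdef] at ht₁
  have hCq := Cq_pos k
  set C₁ : ℝ := (Cq k * 8) ^ ((1 : ℝ) / 2 ^ k) with hC₁
  have hC₁0 : 0 < C₁ := by positivity
  have hev : ∀ᶠ M : ℝ in atTop, 4 ≤ M ∧ t₁ ≤ M ∧ C₁ * M ^ (1 - δ') ≤ M ^ (1 - η) ∧ 2 * M ^ (-(ε / 2)) ≤ M ^ (0 : ℝ) ∧
      2 ≤ M ^ σ ∧ 1 * M ^ σ ≤ M ^ (1 : ℝ) := by
    filter_upwards [eventually_ge_atTop (4 : ℝ), eventually_ge_atTop t₁,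
      ev_pow (1 - δ') (1 - η) C₁ (by linarith), ev_pow (-(ε / 2)) 0 2 (by linarith),
      (tendsto_rpow_atTop hσ0).eventually_ge_atTop 2, ev_pow σ 1 1 (by linarith)] with M h1 h2 h3 h4 h5 h6
    exact ⟨h1, h2, h3, h4, h5, h6⟩
  obtain ⟨M₀, hM₀⟩ := eventually_atTop.mp hev
  obtain ⟨N₀, hN₀⟩ := exists_nat_ge M₀
  refine ⟨N₀, fun N hN L hLN θ hθ1 hθ2 => ?_⟩
  obtain ⟨M, hM⟩ : ∃ M : ℝ, M = (N : ℝ) := ⟨_, rfl⟩
  have hMM : M₀ ≤ M := by
    rw [hM]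
    exact hN₀.trans (by exact_mod_cast hN)
  obtain ⟨hM4, hMt, hp1, hp2, hp4, hp6⟩ := hM₀ M hMM
  rw [← hM] at hθ1 hθ2 ⊢
  have hM0 : 0 < M := by linarith
  have hM1 : 1 ≤ M := by linarith
  rw [Real.rpow_one, one_mul] at hp6
  rw [Real.rpow_zero] at hp2
  have hN1 : 1 ≤ N := by
    have : (1 : ℝ) ≤ N := by rw [← hM]; exact hM1
    exact_mod_cast this
  set H : ℕ := ⌊M ^ σ⌋₊ with hH
  have hHM : (H : ℝ) ≤ M ^ σ := Nat.floor_le (by positivity)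
  have hMH : M ^ σ / 2 ≤ H := by
    have := Nat.lt_floor_add_one (M ^ σ)
    linarith
  have hH1 : 1 ≤ H := by
    have : (0 : ℝ) < H := by linarith
    exact_mod_cast this
  have hHN : H ≤ N := by
    have : (H : ℝ) ≤ N := by rw [← hM]; linarith
    exact_mod_cast this
  have hHy : Hy k M (3 * M) ((3 * M : ℝ) ^ (ε - 1)) (M ^ (-ε)) φ := by
    refine ⟨?_, ?_, ?_, ?_⟩
    · intro m _ t ht
      have ht0 := (ht₁ t (hMt.trans ht.1)).2.2.2
      exact HasDerivAt.fun_sum (u := F) (fun x _ => pw_der (a x) x m t ht0)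
    · intro t ht
      refine le_trans ?_ (ht₁ t (hMt.trans ht.1)).1
      apply Real.rpow_le_rpow_of_nonpos (by linarith [ht.1]) ht.2 (by linarith)
    · intro t ht
      refine ((ht₁ t (hMt.trans ht.1)).2.1).trans ?_
      apply Real.rpow_le_rpow_of_nonpos hM0 ht.1 (by linarith)
    · intro t ht
      exact (ht₁ t (hMt.trans ht.1)).2.2.1
  have hlo0 : 0 < (3 * M : ℝ) ^ (ε - 1) := by positivity
  have hθ0 : 0 < θ := lt_of_lt_of_le (by positivity) hθ1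
  have hθlow : 1 / θ ≤ M ^ η := by
    rw [div_le_iff₀ hθ0]
    calc (1 : ℝ) = M ^ η * M ^ (-η) := by
          rw [← Real.rpow_add hM0, add_neg_cancel, Real.rpow_zero]
      _ ≤ M ^ η * θ := mul_le_mul_of_nonneg_left hθ1 (by positivity)
  have hHk : (H : ℝ) ^ k ≤ M ^ (σ * k) := by
    calc (H : ℝ) ^ k ≤ (M ^ σ) ^ k := pow_le_pow_left₀ (Nat.cast_nonneg _) hHM k
      _ = M ^ (σ * k) := by rw [← Real.rpow_natCast, ← Real.rpow_mul hM0.le]
  have hcond : 2 * (θ * (M ^ (-ε) * (H : ℝ) ^ k)) ≤ 1 := by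
    calc 2 * (θ * (M ^ (-ε) * (H : ℝ) ^ k)) ≤ 2 * (M ^ η * (M ^ (-ε) * M ^ (σ * k))) := by gcongr
      _ = 2 * (M ^ η * M ^ (-ε) * M ^ (σ * k)) := by ring
      _ = 2 * M ^ (η + -ε + σ * k) := by
          rw [Real.rpow_add hM0, Real.rpow_add hM0]
      _ ≤ 2 * M ^ (-(ε / 2)) := by
          apply mul_le_mul_of_nonneg_left _ (by norm_num)
          apply Real.rpow_le_rpow_of_exponent_le hM1
          linarith
      _ ≤ 1 := hp2
  have hLM : (L : ℝ) ≤ M := by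
    rw [hM]
    exact_mod_cast hLN
  have hexp := exp_bound hlo0 (by positivity) θ hθ0 hHy M N L H hN1 hLN le_rfl (by linarith) hH1 hHN hcond
  rw [← hM] at hexp
  have hb : Cq k * (1 / H + 2 / (θ * (3 * M : ℝ) ^ (ε - 1)) / M) ≤ (Cq k * 8) * M ^ (-σ) := by
    have e1 : 1 / (H : ℝ) ≤ 2 * M ^ (-σ) := by
      rw [Real.rpow_neg hM0.le, div_le_iff₀ (by linarith : (0 : ℝ) < H)]
      have h5 : (0 : ℝ) < M ^ σ := by positivity
      calc (1 : ℝ) = 2 * (M ^ σ)⁻¹ * (M ^ σ / 2) := by field_simp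
        _ ≤ _ := by gcongr
    have e2 : 2 / (θ * (3 * M : ℝ) ^ (ε - 1)) / M ≤ 6 * M ^ (-σ) := by
      have e3 : 2 / (θ * (3 * M : ℝ) ^ (ε - 1)) / M = 2 * (1 / θ) * (3 * M : ℝ) ^ (1 - ε) * (1 / M) := by
        rw [show (1 : ℝ) - ε = -(ε - 1) by ring, Real.rpow_neg (by positivity)]
        field_simp
      rw [e3]
      have e4 : (3 * M : ℝ) ^ (1 - ε) ≤ 3 * M ^ (1 - ε) := by
        calc (3 * M : ℝ) ^ (1 - ε) = 3 ^ (1 - ε) * M ^ (1 - ε) := Real.mul_rpow (by norm_num) hM0.le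
          _ ≤ 3 * M ^ (1 - ε) := by
              apply mul_le_mul_of_nonneg_right _ (by positivity)
              calc (3 : ℝ) ^ (1 - ε) ≤ 3 ^ (1 : ℝ) :=
                    Real.rpow_le_rpow_of_exponent_le (by norm_num) (by linarith)
                _ = 3 := Real.rpow_one 3
      have e5 : 1 / M = M ^ (-1 : ℝ) := by
        rw [Real.rpow_neg_one, one_div]
      rw [e5]
      calc 2 * (1 / θ) * (3 * M : ℝ) ^ (1 - ε) * M ^ (-1 : ℝ) ≤
          2 * M ^ η * (3 * M ^ (1 - ε)) * M ^ (-1 : ℝ) := by gcongr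
        _ = 6 * (M ^ η * M ^ (1 - ε) * M ^ (-1 : ℝ)) := by ring
        _ = 6 * M ^ (η + (1 - ε) + -1) := by
            rw [Real.rpow_add hM0, Real.rpow_add hM0]
        _ ≤ 6 * M ^ (-σ) := by
            apply mul_le_mul_of_nonneg_left _ (by norm_num)
            apply Real.rpow_le_rpow_of_exponent_le hM1
            linarith
    calc Cq k * (1 / H + 2 / (θ * (3 * M : ℝ) ^ (ε - 1)) / M) ≤
        Cq k * (2 * M ^ (-σ) + 6 * M ^ (-σ)) := by gcongr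
      _ = _ := by ring
  have hroot := root_le _ _ k (by positivity) (hexp.trans hb)
  have hr2 : ((Cq k * 8) * M ^ (-σ)) ^ ((1 : ℝ) / 2 ^ k) = C₁ * M ^ (-δ') := by
    rw [Real.mul_rpow (by positivity) (by positivity), ← Real.rpow_mul hM0.le, hC₁, hδ']
    congr 2
    ring
  rw [hr2, div_le_iff₀ hM0] at hroot
  have e0 : ∀ n : ℕ, φ 0 (M + n) = gp F a (M + n) := by
    intro n
    rw [hφ]
    unfold gp
    refine Finset.sum_congr rfl fun x _ => ?_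
    unfold pw
    simp
  simp only [e0] at hroot
  refine hroot.trans ?_
  calc C₁ * M ^ (-δ') * M = C₁ * M ^ (1 - δ') := by
        rw [mul_assoc]
        congr 1
        rw [sub_eq_neg_add, Real.rpow_add hM0, Real.rpow_one]
    _ ≤ M ^ (1 - η) := hp1

end Pool.Agent.N12.MH.Gp
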