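import Pool.Agent.R461.HM.Seq
import Pool.Agent.N12.MH.Gp

/-!
# Heights given by generalised polynomials of non-integral order

Owner helper12.
-/

set_option autoImplicit false

namespace Pool.Agent.N12.MH.Gp

open Complex MeasureTheory Filter Topology Set
open Pool.Agent.H469R2.NK (e norm_e)

noncomputable section

/-- the window `J ≤ j < J + L` of the heights `f j + β`: it has at least `J ^ (1 - κ)` and at most `J` terms, `T ≤ J ^ D`, and
all these heights are in `[T, 2T]` -/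
structure Short (f : ℝ → ℝ) (κ D β T : ℝ) (J L : ℕ) : Prop where
  long : (J : ℝ) ^ (1 - κ) ≤ L
  short : L ≤ J
  pol : T ≤ (J : ℝ) ^ D
  mem : ∀ j : ℕ, J ≤ j → j < J + L → f j + β ∈ Icc T (2 * T)

lemma log_low {m n : ℕ} (hm : 1 ≤ m) (hn : 1 ≤ n) (hmn : m ≠ n) {X : ℝ} (hX : (m : ℝ) * n ≤ X) :
    1 / X ≤ |Real.log ((m : ℝ) / n)| ∧ |Real.log ((m : ℝ) / n)| ≤ X := by
  have key : ∀ m n : ℕ, 1 ≤ n → n < m → (m : ℝ) * n ≤ X → 1 / X ≤ Real.log ((m : ℝ) / n) ∧ Real.log ((m : ℝ) / n) ≤ X := by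
    intro m n hn hmn hX
    have hm0 : (0 : ℝ) < m := by exact_mod_cast (by omega : 0 < m)
    have hn0 : (0 : ℝ) < n := by exact_mod_cast hn
    have hn1 : (1 : ℝ) ≤ n := by exact_mod_cast hn
    have hmX : (m : ℝ) ≤ X := by nlinarith
    constructor
    · have h1 := Real.log_le_sub_one_of_pos (div_pos hn0 hm0)
      have h2 : Real.log ((n : ℝ) / m) = -Real.log ((m : ℝ) / n) := by
        rw [← Real.log_inv, inv_div]
      rw [h2] at h1
      have h3 : (n : ℝ) + 1 ≤ m := by exact_mod_cast hmn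
      have h4 : (n : ℝ) / m - 1 ≤ -(1 / m) := by
        rw [div_sub_one hm0.ne', ← neg_div, div_le_div_iff_of_pos_right hm0]
        linarith
      have h5 : 1 / X ≤ 1 / m := one_div_le_one_div_of_le hm0 hmX
      linarith
    · have h1 := Real.log_le_sub_one_of_pos (div_pos hm0 hn0)
      have h2 : (m : ℝ) / n ≤ m := div_le_self hm0.le hn1
      linarith
  rcases Nat.lt_or_gt_of_ne hmn with h | h
  · have h1 := key n m hm h (by rw [mul_comm]; exact hX)
    have h2 : Real.log ((m : ℝ) / n) = -Real.log ((n : ℝ) / m) := by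
      rw [← Real.log_inv, inv_div]
    have hX0 : 0 ≤ 1 / X := by
      have : (0 : ℝ) < m * n := by
        have hm0 : (0 : ℝ) < m := by exact_mod_cast hm
        have hn0 : (0 : ℝ) < n := by exact_mod_cast hn
        positivity
      have : 0 < X := this.trans_le hX
      positivity
    rw [h2, abs_neg, abs_of_nonneg (hX0.trans h1.1)]
    exact h1
  · have h1 := key m n hn h hX
    have hX0 : 0 ≤ 1 / X := by
      have : (0 : ℝ) < m * n := by
        have hm0 : (0 : ℝ) < m := by exact_mod_cast hm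
        have hn0 : (0 : ℝ) < n := by exact_mod_cast hn
        positivity
      have : 0 < X := this.trans_le hX
      positivity
    rw [abs_of_nonneg (hX0.trans h1.1)]
    exact h1

/-- the sum with the frequency `lam` of any sign -/
lemma norm_sum_abs (L : ℕ) (t : ℕ → ℝ) (β lam : ℝ) :
    ‖∑ j ∈ Finset.range L, exp (I * (((t j + β : ℝ) : ℂ) * (lam : ℂ)))‖ =
      ‖∑ j ∈ Finset.range L, e (|lam| / (2 * Real.pi) * t j)‖ := by
  have hpi : (2 * Real.pi : ℝ) ≠ 0 := by positivity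
  have he : ∀ x : ℝ, 2 * Real.pi * (|lam| / (2 * Real.pi) * x) = |lam| * x := by
    intro x
    field_simp
  have h1 : ∑ j ∈ Finset.range L, exp (I * (((t j + β : ℝ) : ℂ) * (lam : ℂ))) =
      exp (((β * lam : ℝ) : ℂ) * I) * ∑ j ∈ Finset.range L, exp (((lam * t j : ℝ) : ℂ) * I) := by
    rw [Finset.mul_sum]
    refine Finset.sum_congr rfl fun j _ => ?_
    rw [← Complex.exp_add]
    congr 1
    push_cast
    ring
  rw [h1, norm_mul, Complex.norm_exp_ofReal_mul_I, one_mul]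
  unfold Pool.Agent.H469R2.NK.e
  simp only [he]
  rcases le_total 0 lam with h | h
  · rw [abs_of_nonneg h]
  · rw [abs_of_nonpos h, ← Complex.norm_conj]
    congr 1
    rw [map_sum]
    refine Finset.sum_congr rfl fun j _ => ?_
    rw [← Complex.exp_conj]
    congr 1
    rw [map_mul, Complex.conj_I, Complex.conj_ofReal]
    push_cast
    ring

/-- **Heights.** -/
theorem gp_heights (c : ℝ) (hc : 0 < c) (hcn : ∀ m : ℕ, c ≠ m) : ∃ η : ℝ, 0 < η ∧ ∀ D : ℝ, 0 < D →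
    ∀ (F : Finset ℝ) (a : ℝ → ℝ), c ∈ F → (∀ x ∈ F, x ≤ c) → 0 < a c → ∃ T₀ : ℝ, ∀ T : ℝ, T₀ ≤ T → ∀ (J L : ℕ) (β : ℝ),
      Short (gp F a) (η / 2) D β T J L →
      1 ≤ L ∧ Pool.Agent.R461.HM.Heights T (T ^ (2 * (η / (8 * D)))) (T ^ (-(η / (2 * D))))
        (Pool.Agent.R461.HM.unif L fun j => gp F a ((J + j : ℕ) : ℝ) + β) := by
  obtain ⟨η, hη, h⟩ := gp_sum c hc hcn
  refine ⟨min η 1, lt_min hη one_pos, fun D hD F a hcF hmax hac => ?_⟩
  obtain ⟨η', hη'⟩ : ∃ η' : ℝ, η' = min η 1 := ⟨_, rfl⟩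
  have hη'0 : 0 < η' := by rw [hη']; exact lt_min hη one_pos
  have hη'1 : η' ≤ 1 := by rw [hη']; exact min_le_right _ _
  have hη'η : η' ≤ η := by rw [hη']; exact min_le_left _ _
  rw [← hη']
  obtain ⟨N₀, h⟩ := h F a hcF hmax hac
  have hev : ∀ᶠ T : ℝ in atTop, 1 ≤ T ∧ (max (N₀ : ℝ) 1) ≤ T ^ (1 / D) ∧
      2 * Real.pi * T ^ (2 * (η' / (8 * D))) ≤ T ^ (η' / D) := by
    filter_upwards [eventually_ge_atTop (1 : ℝ),
      (tendsto_rpow_atTop (show (0 : ℝ) < 1 / D by positivity)).eventually_ge_atTop (max (N₀ : ℝ) 1),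
      ev_pow (2 * (η' / (8 * D))) (η' / D) (2 * Real.pi) (by
        have : 2 * (η' / (8 * D)) = η' / D * (1 / 4) := by field_simp; ring
        rw [this]
        have : 0 < η' / D := by positivity
        linarith)] with T h1 h2 h3
    exact ⟨h1, h2, h3⟩
  obtain ⟨T₀, hT₀⟩ := eventually_atTop.mp hev
  refine ⟨T₀, fun T hT J L β hw => ?_⟩
  obtain ⟨hT1, hTJ, hTp⟩ := hT₀ T hT
  have hT0 : 0 < T := by linarith
  have hJ0 : (0 : ℝ) ≤ J := Nat.cast_nonneg J
  have hTJ2 : T ^ (1 / D) ≤ J := by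
    have h1 : T ^ (1 / D) ≤ ((J : ℝ) ^ D) ^ (1 / D) := Real.rpow_le_rpow hT0.le hw.pol (by positivity)
    rwa [← Real.rpow_mul hJ0, mul_one_div_cancel hD.ne', Real.rpow_one] at h1
  have hJN : (N₀ : ℝ) ≤ J := (le_max_left _ _).trans (hTJ.trans hTJ2)
  have hJ1 : (1 : ℝ) ≤ J := (le_max_right _ _).trans (hTJ.trans hTJ2)
  have hJN' : N₀ ≤ J := by exact_mod_cast hJN
  have hJpos : (0 : ℝ) < J := by linarith
  have hL1 : 1 ≤ L := by
    have h1 : (1 : ℝ) ≤ L := (Real.one_le_rpow hJ1 (by linarith)).trans hw.long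
    exact_mod_cast h1
  refine ⟨hL1, Pool.Agent.R461.HM.unif_heights hL1 (fun j hj => hw.mem (J + j) (by omega) (by omega)) ?_⟩
  intro m n hm hn hmn hY
  obtain ⟨hl1, hl2⟩ := log_low hm hn hmn hY
  rw [norm_sum_abs L (fun j => gp F a ((J + j : ℕ) : ℝ)) β (Real.log ((m : ℝ) / n))]
  obtain ⟨lam, hlam⟩ : ∃ lam : ℝ, lam = |Real.log ((m : ℝ) / n)| := ⟨_, rfl⟩
  rw [← hlam] at hl1 hl2 ⊢
  have hpi := Real.pi_pos
  have hpi1 := Real.pi_gt_three
  have hTη : T ^ (η' / D) ≤ (J : ℝ) ^ η' := by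
    have h1 : (T ^ (1 / D)) ^ η' ≤ (J : ℝ) ^ η' := Real.rpow_le_rpow (by positivity) hTJ2 hη'0.le
    rw [← Real.rpow_mul hT0.le] at h1
    have e1 : η' / D = 1 / D * η' := by ring
    rw [e1]
    exact h1
  have hJη : (J : ℝ) ^ η' ≤ (J : ℝ) ^ η := Real.rpow_le_rpow_of_exponent_le hJ1 hη'η
  have hTpos : 0 < T ^ (2 * (η' / (8 * D))) := by positivity
  have hθ1 : (J : ℝ) ^ (-η) ≤ lam / (2 * Real.pi) := by
    rw [Real.rpow_neg hJ0, le_div_iff₀ (by positivity)]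
    refine le_trans ?_ hl1
    rw [one_div, inv_mul_le_iff₀ (by positivity)]
    have h1 : 2 * Real.pi * T ^ (2 * (η' / (8 * D))) ≤ (J : ℝ) ^ η := hTp.trans (hTη.trans hJη)
    calc 2 * Real.pi = 2 * Real.pi * T ^ (2 * (η' / (8 * D))) * (T ^ (2 * (η' / (8 * D))))⁻¹ := by
          rw [mul_assoc, mul_inv_cancel₀ hTpos.ne', mul_one]
      _ ≤ (J : ℝ) ^ η * (T ^ (2 * (η' / (8 * D))))⁻¹ := mul_le_mul_of_nonneg_right h1 (by positivity)
  have hθ2 : lam / (2 * Real.pi) ≤ (J : ℝ) ^ η := by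
    have h1 : lam / (2 * Real.pi) ≤ lam := by
      have h2 : 0 ≤ lam := by rw [hlam]; exact abs_nonneg _
      exact div_le_self h2 (by linarith)
    refine h1.trans (hl2.trans ?_)
    have h3 : T ^ (2 * (η' / (8 * D))) ≤ 2 * Real.pi * T ^ (2 * (η' / (8 * D))) := by nlinarith
    exact h3.trans (hTp.trans (hTη.trans hJη))
  have h1 := h J hJN' L hw.short (lam / (2 * Real.pi)) hθ1 hθ2
  have h2 : ∑ j ∈ Finset.range L, e (lam / (2 * Real.pi) * gp F a ((J + j : ℕ) : ℝ)) =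
      ∑ n ∈ Finset.range L, e (lam / (2 * Real.pi) * gp F a ((J : ℝ) + n)) := by
    refine Finset.sum_congr rfl fun j _ => ?_
    push_cast
    rfl
  rw [h2]
  refine h1.trans ?_
  have h3 : (J : ℝ) ^ (1 - η) ≤ (J : ℝ) ^ (1 - η') := Real.rpow_le_rpow_of_exponent_le hJ1 (by linarith)
  have h4 : (J : ℝ) ^ (1 - η') = (J : ℝ) ^ (1 - η' / 2) * (J : ℝ) ^ (-(η' / 2)) := by
    rw [← Real.rpow_add hJpos]
    congr 1
    ring
  have h5 : (J : ℝ) ^ (-(η' / 2)) ≤ T ^ (-(η' / (2 * D))) := by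
    rw [Real.rpow_neg hJ0, Real.rpow_neg hT0.le]
    refine inv_anti₀ (by positivity) ?_
    have h6 : (T ^ (1 / D)) ^ (η' / 2) ≤ (J : ℝ) ^ (η' / 2) := Real.rpow_le_rpow (by positivity) hTJ2 (by positivity)
    rw [← Real.rpow_mul hT0.le] at h6
    have e1 : η' / (2 * D) = 1 / D * (η' / 2) := by field_simp
    rw [e1]
    exact h6
  have hw1 : 1 ≤ 1 + 1 / lam := by
    have h7 : 0 < 1 / T ^ (2 * (η' / (8 * D))) := by positivity
    have h8 : 0 < lam := h7.trans_le hl1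
    have : 0 < 1 / lam := by positivity
    linarith
  calc (J : ℝ) ^ (1 - η) ≤ (J : ℝ) ^ (1 - η' / 2) * (J : ℝ) ^ (-(η' / 2)) := by rw [← h4]; exact h3
    _ ≤ L * T ^ (-(η' / (2 * D))) := mul_le_mul hw.long h5 (by positivity) (Nat.cast_nonneg L)
    _ ≤ L * (T ^ (-(η' / (2 * D))) * (1 + 1 / lam)) := by
        refine mul_le_mul_of_nonneg_left ?_ (Nat.cast_nonneg L)
        exact le_mul_of_one_le_right (by positivity) hw1

end

end Pool.Agent.N12.MH.Gp
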