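import Pool.Agent.N12.MH.Met

/-!
# Exponential sums along dilates of separated sequences: blocks and windows
-/

set_option autoImplicit false

namespace Pool.Agent.N12.MH

open MeasureTheory Filter Topology Finset

noncomputable section

/-- the bad set at level `h` -/
def bad (x : ℕ → ℝ) (ε A : ℝ) (h : ℕ) : Set ℝ :=
  ⋃ u ∈ range (⌊((2 : ℝ) ^ h) ^ (1 - 8 * ε)⌋₊ + 1), ⋃ m ∈ Icc 1 ⌊((2 : ℝ) ^ h) ^ ε⌋₊,
    ⋃ n ∈ (Icc 1 ⌊((2 : ℝ) ^ h) ^ ε⌋₊).filter (fun n => m ≠ n),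
      {α : ℝ | α ∈ Set.Ioc A (A + 1) ∧ ((2 : ℝ) ^ h) ^ (1 - ε) * (1 + 1 / |Real.log ((m : ℝ) / n)|) <
        ‖S x (Real.log ((m : ℝ) / n)) (u * 2 ^ h) ((u + 1) * 2 ^ h) α‖}

lemma log_ne {m n : ℕ} (hm : 1 ≤ m) (hn : 1 ≤ n) (h : m ≠ n) : Real.log ((m : ℝ) / n) ≠ 0 := by
  have hm0 : (0 : ℝ) < m := by exact_mod_cast hm
  have hn0 : (0 : ℝ) < n := by exact_mod_cast hn
  refine Real.log_ne_zero_of_pos_of_ne_one (by positivity) ?_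
  intro h1
  rw [div_eq_one_iff_eq hn0.ne'] at h1
  exact h (by exact_mod_cast h1)

lemma bad_le {x : ℕ → ℝ} (hx : ∀ n, x n + 1 ≤ x (n + 1)) {ε : ℝ} (hε0 : 0 < ε) (hε1 : ε ≤ 1 / 8) (A : ℝ) (h : ℕ) :
    volume (bad x ε A h) ≤ ENNReal.ofReal (8 * (1 + (h : ℝ)) * ((2 : ℝ) ^ (-4 * ε)) ^ h) := by
  obtain ⟨H, hH⟩ : ∃ H : ℝ, H = (2 : ℝ) ^ h := ⟨_, rfl⟩
  have hH1 : 1 ≤ H := by
    rw [hH]
    exact one_le_pow₀ (by norm_num)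
  have hH0 : 0 < H := by linarith
  have hlog0 : 0 ≤ Real.log H := Real.log_nonneg hH1
  have hlog : Real.log H ≤ h := by
    rw [hH, Real.log_pow]
    have : Real.log 2 ≤ 1 := by linarith [Real.log_two_lt_d9]
    have h0 : (0 : ℝ) ≤ h := Nat.cast_nonneg h
    nlinarith
  obtain ⟨c, hc⟩ : ∃ c : ℝ, c = 4 * H * (1 + Real.log H) / (H ^ (1 - ε)) ^ 2 := ⟨_, rfl⟩
  have hc0 : 0 ≤ c := by
    rw [hc]
    positivity
  have hone : ∀ u m n : ℕ, 1 ≤ m → 1 ≤ n → m ≠ n →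
      volume {α : ℝ | α ∈ Set.Ioc A (A + 1) ∧ ((2 : ℝ) ^ h) ^ (1 - ε) * (1 + 1 / |Real.log ((m : ℝ) / n)|) <
        ‖S x (Real.log ((m : ℝ) / n)) (u * 2 ^ h) ((u + 1) * 2 ^ h) α‖} ≤ ENNReal.ofReal c := by
    intro u m n hm hn hmn
    have h2 : 0 < 2 ^ h := by positivity
    have hlt : u * 2 ^ h < (u + 1) * 2 ^ h := by
      rw [add_mul, one_mul]
      omega
    have h1 := bad_meas hx A (Real.log ((m : ℝ) / n)) (log_ne hm hn hmn) (u * 2 ^ h) ((u + 1) * 2 ^ h) hlt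
      (V := ((2 : ℝ) ^ h) ^ (1 - ε)) (by positivity)
    have h3 : (u + 1) * 2 ^ h - u * 2 ^ h = 2 ^ h := by
      rw [add_mul, one_mul]
      omega
    rw [h3] at h1
    refine h1.trans (le_of_eq ?_)
    rw [hc, hH]
    push_cast
    rfl
  have hM : ((⌊H ^ ε⌋₊ : ℕ) : ℝ) ≤ H ^ ε := Nat.floor_le (by positivity)
  have hU : ((⌊H ^ (1 - 8 * ε)⌋₊ + 1 : ℕ) : ℝ) ≤ 2 * H ^ (1 - 8 * ε) := by
    have h1 : ((⌊H ^ (1 - 8 * ε)⌋₊ : ℕ) : ℝ) ≤ H ^ (1 - 8 * ε) := Nat.floor_le (by positivity)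
    have h2 : 1 ≤ H ^ (1 - 8 * ε) := Real.one_le_rpow hH1 (by linarith)
    push_cast
    linarith
  have hbad : volume (bad x ε A h) ≤ ENNReal.ofReal
      (((⌊H ^ (1 - 8 * ε)⌋₊ + 1 : ℕ) : ℝ) * (((⌊H ^ ε⌋₊ : ℕ) : ℝ) * (((⌊H ^ ε⌋₊ : ℕ) : ℝ) * c))) := by
    unfold bad
    rw [← hH]
    refine (measure_biUnion_finset_le _ _).trans ?_
    rw [ENNReal.ofReal_mul (Nat.cast_nonneg _), ENNReal.ofReal_natCast]
    have hu : ∀ u ∈ range (⌊H ^ (1 - 8 * ε)⌋₊ + 1), volume (⋃ m ∈ Icc 1 ⌊H ^ ε⌋₊,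
        ⋃ n ∈ (Icc 1 ⌊H ^ ε⌋₊).filter (fun n => m ≠ n),
          {α : ℝ | α ∈ Set.Ioc A (A + 1) ∧ H ^ (1 - ε) * (1 + 1 / |Real.log ((m : ℝ) / n)|) <
            ‖S x (Real.log ((m : ℝ) / n)) (u * 2 ^ h) ((u + 1) * 2 ^ h) α‖}) ≤
        ENNReal.ofReal (((⌊H ^ ε⌋₊ : ℕ) : ℝ) * (((⌊H ^ ε⌋₊ : ℕ) : ℝ) * c)) := by
      intro u _
      refine (measure_biUnion_finset_le _ _).trans ?_
      rw [ENNReal.ofReal_mul (Nat.cast_nonneg _), ENNReal.ofReal_natCast]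
      have hm : ∀ m ∈ Icc 1 ⌊H ^ ε⌋₊, volume (⋃ n ∈ (Icc 1 ⌊H ^ ε⌋₊).filter (fun n => m ≠ n),
          {α : ℝ | α ∈ Set.Ioc A (A + 1) ∧ H ^ (1 - ε) * (1 + 1 / |Real.log ((m : ℝ) / n)|) <
            ‖S x (Real.log ((m : ℝ) / n)) (u * 2 ^ h) ((u + 1) * 2 ^ h) α‖}) ≤
          ENNReal.ofReal (((⌊H ^ ε⌋₊ : ℕ) : ℝ) * c) := by
        intro m hm
        rw [mem_Icc] at hm
        refine (measure_biUnion_finset_le _ _).trans ?_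
        rw [ENNReal.ofReal_mul (Nat.cast_nonneg _), ENNReal.ofReal_natCast]
        refine (sum_le_card_nsmul _ _ (ENNReal.ofReal c) fun n hn => ?_).trans ?_
        · rw [mem_filter, mem_Icc] at hn
          have := hone u m n hm.1 hn.1.1 hn.2
          rw [← hH] at this
          exact this
        · rw [nsmul_eq_mul]
          refine mul_le_mul_left ?_ _
          have h1 := card_filter_le (Icc 1 ⌊H ^ ε⌋₊) (fun n => m ≠ n)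
          rw [Nat.card_Icc, Nat.add_sub_cancel] at h1
          exact_mod_cast h1
      refine (sum_le_card_nsmul _ _ _ hm).trans ?_
      rw [Nat.card_Icc, Nat.add_sub_cancel, nsmul_eq_mul]
    refine (sum_le_card_nsmul _ _ _ hu).trans ?_
    rw [card_range, nsmul_eq_mul]
  refine hbad.trans (ENNReal.ofReal_le_ofReal ?_)
  have hr : ((2 : ℝ) ^ (-4 * ε)) ^ h = H ^ (-4 * ε) := by
    rw [hH, ← Real.rpow_natCast ((2 : ℝ) ^ (-4 * ε)), ← Real.rpow_natCast (2 : ℝ), ← Real.rpow_mul (by norm_num),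
      ← Real.rpow_mul (by norm_num)]
    congr 1
    ring
  rw [hr]
  have h1 : ((⌊H ^ (1 - 8 * ε)⌋₊ + 1 : ℕ) : ℝ) * (((⌊H ^ ε⌋₊ : ℕ) : ℝ) * (((⌊H ^ ε⌋₊ : ℕ) : ℝ) * c)) ≤
      (2 * H ^ (1 - 8 * ε)) * (H ^ ε * (H ^ ε * c)) := by
    gcongr
  refine h1.trans ?_
  have h2 : (2 * H ^ (1 - 8 * ε)) * (H ^ ε * (H ^ ε * c)) = 8 * (1 + Real.log H) * H ^ (-4 * ε) := by
    have e1 : (H ^ (1 - ε)) ^ 2 = H ^ (2 - 2 * ε) := by
      rw [← Real.rpow_natCast (H ^ (1 - ε)), ← Real.rpow_mul hH0.le]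
      congr 1
      push_cast
      ring
    have e2 : H ^ (-4 * ε) = H ^ (1 - 8 * ε) * H ^ ε * H ^ ε * H * (H ^ (2 - 2 * ε))⁻¹ := by
      rw [← Real.rpow_neg hH0.le, ← Real.rpow_add hH0, ← Real.rpow_add hH0]
      nth_rewrite 3 [← Real.rpow_one H]
      rw [← Real.rpow_add hH0, ← Real.rpow_add hH0]
      congr 1
      ring
    rw [hc, e1, e2]
    ring
  rw [h2]
  have h3 : 0 ≤ H ^ (-4 * ε) := by positivity
  have h4 : 8 * (1 + Real.log H) ≤ 8 * (1 + (h : ℝ)) := by linarith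
  exact mul_le_mul_of_nonneg_right h4 h3

/-- **Blocks.** -/
theorem blocks {x : ℕ → ℝ} (hx : ∀ n, x n + 1 ≤ x (n + 1)) {ε : ℝ} (hε0 : 0 < ε) (hε1 : ε ≤ 1 / 8) :
    ∀ᵐ α : ℝ, ∃ h₀ : ℕ, ∀ h : ℕ, h₀ ≤ h → ∀ u : ℕ, (u : ℝ) ≤ ((2 : ℝ) ^ h) ^ (1 - 8 * ε) → ∀ m n : ℕ, 1 ≤ m → 1 ≤ n → m ≠ n →
      (m : ℝ) ≤ ((2 : ℝ) ^ h) ^ ε → (n : ℝ) ≤ ((2 : ℝ) ^ h) ^ ε →
        ‖S x (Real.log ((m : ℝ) / n)) (u * 2 ^ h) ((u + 1) * 2 ^ h) α‖ ≤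
          ((2 : ℝ) ^ h) ^ (1 - ε) * (1 + 1 / |Real.log ((m : ℝ) / n)|) := by
  have hsum : Summable (fun h : ℕ => 8 * (1 + (h : ℝ)) * ((2 : ℝ) ^ (-4 * ε)) ^ h) := by
    have hr0 : 0 ≤ (2 : ℝ) ^ (-4 * ε) := by positivity
    have hr1 : (2 : ℝ) ^ (-4 * ε) < 1 := Real.rpow_lt_one_of_one_lt_of_neg (by norm_num) (by linarith)
    have h1 : Summable (fun h : ℕ => ((h : ℝ) ^ 1 * ((2 : ℝ) ^ (-4 * ε)) ^ h : ℝ)) :=
      summable_pow_mul_geometric_of_norm_lt_one 1 (by rwa [Real.norm_of_nonneg hr0])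
    have h2 := summable_geometric_of_lt_one hr0 hr1
    refine ((h1.add h2).mul_left 8).congr fun h => ?_
    rw [pow_one]
    ring
  have hA : ∀ A : ℤ, ∀ᵐ α : ℝ, ∀ᶠ h : ℕ in atTop, α ∉ bad x ε (A : ℝ) h := by
    intro A
    refine ae_eventually_notMem ?_
    refine ne_top_of_le_ne_top ?_ (ENNReal.tsum_le_tsum fun h => bad_le hx hε0 hε1 (A : ℝ) h)
    rw [← ENNReal.ofReal_tsum_of_nonneg (fun h => by positivity) hsum]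
    exact ENNReal.ofReal_ne_top
  filter_upwards [ae_all_iff.2 hA] with α hα
  have h1 := hα (⌈α⌉ - 1)
  rw [eventually_atTop] at h1
  obtain ⟨h₀, h2⟩ := h1
  refine ⟨h₀, fun h hh u hu m n hm hn hmn hmM hnM => ?_⟩
  by_contra hcon
  push Not at hcon
  refine h2 h hh ?_
  unfold bad
  simp only [Set.mem_iUnion]
  refine ⟨u, ?_, m, ?_, n, ?_, ?_, hcon⟩
  · rw [mem_range, Nat.lt_add_one_iff]
    exact Nat.le_floor hu
  · rw [mem_Icc]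
    exact ⟨hm, Nat.le_floor hmM⟩
  · rw [mem_filter, mem_Icc]
    exact ⟨⟨hn, Nat.le_floor hnM⟩, hmn⟩
  · rw [Set.mem_Ioc]
    push_cast
    constructor
    · linarith [Int.ceil_lt_add_one α]
    · linarith [Int.le_ceil α]

lemma S_sub (x : ℕ → ℝ) (lam α : ℝ) {a b : ℕ} (h : a ≤ b) : S x lam a b α = S x lam 0 b α - S x lam 0 a α := by
  unfold S
  rw [← Finset.sum_Ico_consecutive _ (Nat.zero_le a) h]
  ring

lemma S_blocks (x : ℕ → ℝ) (lam α : ℝ) (H u : ℕ) :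
    S x lam 0 (u * H) α = ∑ v ∈ range u, S x lam (v * H) ((v + 1) * H) α := by
  induction u with
  | zero => simp [S]
  | succ u ih =>
    rw [sum_range_succ, ← ih, S_sub x lam α (show u * H ≤ (u + 1) * H by nlinarith)]
    ring

/-- **Windows.** -/
theorem windows (x : ℕ → ℝ) (α : ℝ) {ε η : ℝ} (hε0 : 0 < ε) (hη : 10 * ε ≤ η) (hη1 : η ≤ 1 / 2)
    (hB : ∃ h₀ : ℕ, ∀ h : ℕ, h₀ ≤ h → ∀ u : ℕ, (u : ℝ) ≤ ((2 : ℝ) ^ h) ^ (1 - 8 * ε) → ∀ m n : ℕ, 1 ≤ m → 1 ≤ n → m ≠ n →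
      (m : ℝ) ≤ ((2 : ℝ) ^ h) ^ ε → (n : ℝ) ≤ ((2 : ℝ) ^ h) ^ ε →
        ‖S x (Real.log ((m : ℝ) / n)) (u * 2 ^ h) ((u + 1) * 2 ^ h) α‖ ≤
          ((2 : ℝ) ^ h) ^ (1 - ε) * (1 + 1 / |Real.log ((m : ℝ) / n)|)) :
    ∃ W₀ : ℝ, ∀ J₁ J₂ : ℕ, J₁ < J₂ → W₀ ≤ (J₂ : ℝ) - J₁ → (J₂ : ℝ) ^ (1 / 2 + η) ≤ (J₂ : ℝ) - J₁ →
      ∀ m n : ℕ, 1 ≤ m → 1 ≤ n → m ≠ n → (m : ℝ) ≤ ((J₂ : ℝ) - J₁) ^ (ε / 2) → (n : ℝ) ≤ ((J₂ : ℝ) - J₁) ^ (ε / 2) →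
        ‖S x (Real.log ((m : ℝ) / n)) J₁ J₂ α‖ ≤
          4 * ((J₂ : ℝ) - J₁) ^ (1 - ε / 2) * (1 + 1 / |Real.log ((m : ℝ) / n)|) := by
  obtain ⟨h₀, hB⟩ := hB
  have hη0 : 0 < η := by linarith
  refine ⟨max (max 16 (((2 : ℝ) ^ (h₀ + 1)) ^ 2)) ((4 : ℝ) ^ (1 / η)), fun J₁ J₂ hJ hW hWη m n hm hn hmn hmM hnM => ?_⟩
  obtain ⟨W, hWdef⟩ : ∃ W : ℝ, W = (J₂ : ℝ) - J₁ := ⟨_, rfl⟩
  rw [← hWdef] at hW hWη hmM hnM ⊢
  have hW16 : 16 ≤ W := (le_max_left _ _).trans ((le_max_left _ _).trans hW)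
  have hWh : ((2 : ℝ) ^ (h₀ + 1)) ^ 2 ≤ W := (le_max_right _ _).trans ((le_max_left _ _).trans hW)
  have hW4 : (4 : ℝ) ^ (1 / η) ≤ W := (le_max_right _ _).trans hW
  have hW0 : 0 < W := by linarith
  have hW1 : 1 ≤ W := by linarith
  have hε2 : ε ≤ 1 / 20 := by linarith
  -- the scale
  obtain ⟨h, hh⟩ : ∃ h : ℕ, h = Nat.log 2 ⌊W ^ (1 - ε)⌋₊ := ⟨_, rfl⟩
  obtain ⟨H, hH⟩ : ∃ H : ℝ, H = (2 : ℝ) ^ h := ⟨_, rfl⟩
  have hWe1 : 1 ≤ W ^ (1 - ε) := Real.one_le_rpow hW1 (by linarith)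
  have hfl : ⌊W ^ (1 - ε)⌋₊ ≠ 0 := by
    have : 1 ≤ ⌊W ^ (1 - ε)⌋₊ := Nat.le_floor (by exact_mod_cast hWe1)
    omega
  have hHW : H ≤ W ^ (1 - ε) := by
    have h1 : 2 ^ h ≤ ⌊W ^ (1 - ε)⌋₊ := by
      rw [hh]
      exact Nat.pow_log_le_self 2 hfl
    have h2 : ((2 ^ h : ℕ) : ℝ) ≤ W ^ (1 - ε) := (Nat.cast_le.2 h1).trans (Nat.floor_le (by positivity))
    rw [hH]
    push_cast at h2
    exact h2
  have hHW2 : W ^ (1 - ε) < 2 * H := by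
    have h1 : ⌊W ^ (1 - ε)⌋₊ < 2 ^ (h + 1) := by
      rw [hh]
      exact Nat.lt_pow_succ_log_self (by norm_num) _
    have h2 : W ^ (1 - ε) < ⌊W ^ (1 - ε)⌋₊ + 1 := Nat.lt_floor_add_one _
    have h3 : ((⌊W ^ (1 - ε)⌋₊ + 1 : ℕ) : ℝ) ≤ ((2 ^ (h + 1) : ℕ) : ℝ) := Nat.cast_le.2 h1
    push_cast at h3
    rw [hH]
    have e : 2 * (2 : ℝ) ^ h = 2 ^ (h + 1) := by ring
    rw [e]
    linarith
  have hH1 : 1 ≤ H := by
    rw [hH]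
    exact one_le_pow₀ (by norm_num)
  have hH0 : 0 < H := by linarith
  -- `W ^ (1/2) ≤ H`
  have hsq : W ^ ((1 : ℝ) / 2) * W ^ ((1 : ℝ) / 4) ≤ W ^ (1 - ε) := by
    rw [← Real.rpow_add hW0]
    exact Real.rpow_le_rpow_of_exponent_le hW1 (by linarith)
  have h14 : 2 ≤ W ^ ((1 : ℝ) / 4) := by
    have e : (2 : ℝ) = (16 : ℝ) ^ ((1 : ℝ) / 4) := by
      rw [show (16 : ℝ) = 2 ^ (4 : ℝ) by norm_num, ← Real.rpow_mul (by norm_num)]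
      norm_num
    rw [e]
    exact Real.rpow_le_rpow (by norm_num) hW16 (by norm_num)
  have hWH : W ^ ((1 : ℝ) / 2) ≤ H := by
    have h1 : 0 ≤ W ^ ((1 : ℝ) / 2) := by positivity
    nlinarith
  have hhh : h₀ ≤ h := by
    have h1 : (2 : ℝ) ^ (h₀ + 1) ≤ W ^ ((1 : ℝ) / 2) := by
      rw [← Real.sqrt_eq_rpow]
      exact Real.le_sqrt_of_sq_le hWh
    have h2 : (2 : ℝ) ^ (h₀ + 1) < 2 ^ (h + 1) := by
      have e : 2 * (2 : ℝ) ^ h = 2 ^ (h + 1) := by ring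
      rw [← e, ← hH]
      have : W ^ ((1 : ℝ) / 2) ≤ W ^ (1 - ε) := Real.rpow_le_rpow_of_exponent_le hW1 (by linarith)
      linarith
    have h3 := (pow_lt_pow_iff_right₀ (by norm_num : (1 : ℝ) < 2)).1 h2
    omega
  have hpow : W ^ (ε / 2) ≤ H ^ ε := by
    have e : W ^ (ε / 2) = (W ^ ((1 : ℝ) / 2)) ^ ε := by
      rw [← Real.rpow_mul hW0.le]
      congr 1
      ring
    rw [e]
    exact Real.rpow_le_rpow (by positivity) hWH hε0.le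
  -- `J₂ ≤ H ^ (2 - 8 ε)`
  have hJ2 : (J₂ : ℝ) ≤ H ^ (1 - 8 * ε) * H := by
    have hJ0 : (0 : ℝ) < J₂ := by exact_mod_cast (by omega : 0 < J₂)
    have h1 : (J₂ : ℝ) ≤ W ^ (2 - 2 * η) := by
      have h2 : ((J₂ : ℝ) ^ (1 / 2 + η)) ^ (1 / (1 / 2 + η)) ≤ W ^ (1 / (1 / 2 + η)) :=
        Real.rpow_le_rpow (by positivity) hWη (by positivity)
      rw [← Real.rpow_mul hJ0.le, mul_one_div_cancel (by positivity), Real.rpow_one] at h2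
      refine h2.trans (Real.rpow_le_rpow_of_exponent_le hW1 ?_)
      rw [div_le_iff₀ (by positivity)]
      nlinarith
    have h2 : W ^ (2 - 2 * η) * 4 ≤ W ^ (2 - 10 * ε) := by
      have h3 : 4 ≤ W ^ η := by
        have h4 : ((4 : ℝ) ^ (1 / η)) ^ η ≤ W ^ η := Real.rpow_le_rpow (by positivity) hW4 hη0.le
        rwa [← Real.rpow_mul (by norm_num), one_div_mul_cancel hη0.ne', Real.rpow_one] at h4
      calc W ^ (2 - 2 * η) * 4 ≤ W ^ (2 - 2 * η) * W ^ η := mul_le_mul_of_nonneg_left h3 (by positivity)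
        _ = W ^ (2 - η) := by
            rw [← Real.rpow_add hW0]
            congr 1
            ring
        _ ≤ W ^ (2 - 10 * ε) := Real.rpow_le_rpow_of_exponent_le hW1 (by linarith)
    have h3 : W ^ (2 - 10 * ε) ≤ (W ^ (1 - ε)) ^ (2 - 8 * ε) := by
      rw [← Real.rpow_mul hW0.le]
      refine Real.rpow_le_rpow_of_exponent_le hW1 ?_
      nlinarith
    have h4 : (W ^ (1 - ε)) ^ (2 - 8 * ε) ≤ (2 * H) ^ (2 - 8 * ε) :=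
      Real.rpow_le_rpow (by positivity) hHW2.le (by linarith)
    have h5 : (2 * H) ^ (2 - 8 * ε) ≤ 4 * (H ^ (1 - 8 * ε) * H) := by
      rw [Real.mul_rpow (by norm_num) hH0.le]
      have h6 : (2 : ℝ) ^ (2 - 8 * ε) ≤ 4 := by
        calc (2 : ℝ) ^ (2 - 8 * ε) ≤ 2 ^ (2 : ℝ) := Real.rpow_le_rpow_of_exponent_le (by norm_num) (by linarith)
          _ = 4 := by norm_num
      have h7 : H ^ (2 - 8 * ε) = H ^ (1 - 8 * ε) * H := by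
        nth_rewrite 3 [← Real.rpow_one H]
        rw [← Real.rpow_add hH0]
        congr 1
        ring
      rw [h7]
      exact mul_le_mul_of_nonneg_right h6 (by positivity)
    linarith
  -- the blocks
  obtain ⟨w, hw⟩ : ∃ w : ℝ, w = 1 + 1 / |Real.log ((m : ℝ) / n)| := ⟨_, rfl⟩
  have hw1 : 1 ≤ w := by
    rw [hw]
    have := abs_pos.2 (log_ne hm hn hmn)
    have : 0 < 1 / |Real.log ((m : ℝ) / n)| := by positivity
    linarith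
  rw [← hw]
  obtain ⟨lam, hlam⟩ : ∃ lam : ℝ, lam = Real.log ((m : ℝ) / n) := ⟨_, rfl⟩
  rw [← hlam]
  obtain ⟨H', hH'⟩ : ∃ H' : ℕ, H' = 2 ^ h := ⟨_, rfl⟩
  have hHH : (H' : ℝ) = H := by
    rw [hH', hH]
    push_cast
    rfl
  have hH'0 : 0 < H' := by
    rw [hH']
    positivity
  have hblk : ∀ u : ℕ, u * H' ≤ J₂ → ‖S x lam (u * H') ((u + 1) * H') α‖ ≤ H ^ (1 - ε) * w := by
    intro u hu
    have h1 : (u : ℝ) ≤ H ^ (1 - 8 * ε) := by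
      have h2 : (u : ℝ) * H ≤ J₂ := by
        rw [← hHH]
        exact_mod_cast hu
      have h3 := h2.trans hJ2
      exact le_of_mul_le_mul_right h3 hH0
    have h2 := hB h hhh u (by rw [← hH]; exact h1) m n hm hn hmn (by rw [← hH]; exact hmM.trans hpow)
      (by rw [← hH]; exact hnM.trans hpow)
    rw [← hlam] at h2 hw
    rw [← hH', ← hH, ← hw] at h2
    exact h2
  -- the decomposition
  have hdiv1 : J₁ / H' * H' ≤ J₁ := Nat.div_mul_le_self _ _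
  have hdiv2 : J₂ / H' * H' ≤ J₂ := Nat.div_mul_le_self _ _
  have hmod1 : J₁ < (J₁ / H' + 1) * H' := by
    rw [add_mul, one_mul]
    exact Nat.lt_div_mul_add hH'0
  have hmod2 : J₂ < (J₂ / H' + 1) * H' := by
    rw [add_mul, one_mul]
    exact Nat.lt_div_mul_add hH'0
  obtain ⟨u₁, hu₁⟩ : ∃ u₁ : ℕ, u₁ = J₁ / H' := ⟨_, rfl⟩
  obtain ⟨u₂, hu₂⟩ : ∃ u₂ : ℕ, u₂ = J₂ / H' := ⟨_, rfl⟩
  rw [← hu₁] at hdiv1 hmod1
  rw [← hu₂] at hdiv2 hmod2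
  have hu12 : u₁ ≤ u₂ := by
    rw [hu₁, hu₂]
    exact Nat.div_le_div_right hJ.le
  have hend : ∀ (u J : ℕ), u * H' ≤ J → J < (u + 1) * H' → ‖S x lam (u * H') J α‖ ≤ H := by
    intro u J h1 h2
    refine (S_norm_le _ _ _ _ _).trans ?_
    rw [← hHH]
    rw [add_mul, one_mul] at h2
    exact_mod_cast (by omega : J - u * H' ≤ H')
  have hcount : ((u₂ : ℝ) - u₁) * H ≤ W + H := by
    have h1 : (u₂ : ℝ) * H ≤ J₂ := by
      rw [← hHH]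
      exact_mod_cast hdiv2
    have h2 : (J₁ : ℝ) ≤ (u₁ + 1) * H := by
      rw [← hHH]
      exact_mod_cast hmod1.le
    rw [hWdef]
    linarith
  have hdecomp : S x lam J₁ J₂ α = S x lam (u₂ * H') J₂ α - S x lam (u₁ * H') J₁ α +
      ∑ v ∈ Ico u₁ u₂, S x lam (v * H') ((v + 1) * H') α := by
    rw [Finset.sum_Ico_eq_sub _ hu12, ← S_blocks, ← S_blocks, S_sub x lam α hJ.le, S_sub x lam α hdiv2,
      S_sub x lam α hdiv1]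
    ring
  rw [hdecomp]
  have hsumb : ‖∑ v ∈ Ico u₁ u₂, S x lam (v * H') ((v + 1) * H') α‖ ≤ ((u₂ : ℝ) - u₁) * (H ^ (1 - ε) * w) := by
    refine (norm_sum_le _ _).trans ?_
    refine (sum_le_card_nsmul _ _ (H ^ (1 - ε) * w) fun v hv => ?_).trans (le_of_eq ?_)
    · rw [mem_Ico] at hv
      refine hblk v ?_
      have : v * H' ≤ u₂ * H' := Nat.mul_le_mul_right _ hv.2.le
      omega
    · rw [Nat.card_Ico, nsmul_eq_mul, Nat.cast_sub hu12]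
  have hbound : ((u₂ : ℝ) - u₁) * (H ^ (1 - ε) * w) ≤ 2 * W ^ (1 - ε / 2) * w := by
    have e1 : H ^ (1 - ε) = H * H ^ (-ε) := by
      nth_rewrite 2 [← Real.rpow_one H]
      rw [← Real.rpow_add hH0]
      congr 1
    have h1 : ((u₂ : ℝ) - u₁) * (H ^ (1 - ε) * w) = (((u₂ : ℝ) - u₁) * H) * (H ^ (-ε) * w) := by
      rw [e1]
      ring
    have h2 : H ^ (-ε) ≤ W ^ (-(ε / 2)) := by
      rw [Real.rpow_neg hH0.le, Real.rpow_neg hW0.le]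
      exact inv_anti₀ (by positivity) hpow
    have h3 : H ≤ W := by
      refine hHW.trans ?_
      calc W ^ (1 - ε) ≤ W ^ (1 : ℝ) := Real.rpow_le_rpow_of_exponent_le hW1 (by linarith)
        _ = W := Real.rpow_one W
    have e2 : W ^ (1 - ε / 2) = W * W ^ (-(ε / 2)) := by
      nth_rewrite 2 [← Real.rpow_one W]
      rw [← Real.rpow_add hW0]
      congr 1
    rw [h1, e2]
    calc (((u₂ : ℝ) - u₁) * H) * (H ^ (-ε) * w) ≤ (W + H) * (H ^ (-ε) * w) :=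
          mul_le_mul_of_nonneg_right hcount (by positivity)
      _ ≤ (2 * W) * (W ^ (-(ε / 2)) * w) := by
          gcongr
          linarith
      _ = _ := by ring
  have hHs : H ≤ W ^ (1 - ε / 2) := hHW.trans (Real.rpow_le_rpow_of_exponent_le hW1 (by linarith))
  have hn1 := hend u₂ J₂ hdiv2 hmod2
  have hn2 := hend u₁ J₁ hdiv1 hmod1
  have hWw : W ^ (1 - ε / 2) ≤ W ^ (1 - ε / 2) * w := le_mul_of_one_le_right (by positivity) hw1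
  calc ‖S x lam (u₂ * H') J₂ α - S x lam (u₁ * H') J₁ α + ∑ v ∈ Ico u₁ u₂, S x lam (v * H') ((v + 1) * H') α‖
      ≤ ‖S x lam (u₂ * H') J₂ α - S x lam (u₁ * H') J₁ α‖ + ‖∑ v ∈ Ico u₁ u₂, S x lam (v * H') ((v + 1) * H') α‖ :=
        norm_add_le _ _
    _ ≤ (‖S x lam (u₂ * H') J₂ α‖ + ‖S x lam (u₁ * H') J₁ α‖) + 2 * W ^ (1 - ε / 2) * w :=
        add_le_add (norm_sub_le _ _) (hsumb.trans hbound)
    _ ≤ 4 * W ^ (1 - ε / 2) * w := by linarith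

/-- **Windows, for almost all dilations.** -/
theorem windows_ae {x : ℕ → ℝ} (hx : ∀ n, x n + 1 ≤ x (n + 1)) {η : ℝ} (hη0 : 0 < η) (hη1 : η ≤ 1 / 2) :
    ∀ᵐ α : ℝ, ∃ W₀ : ℝ, ∀ J₁ J₂ : ℕ, J₁ < J₂ → W₀ ≤ (J₂ : ℝ) - J₁ → (J₂ : ℝ) ^ (1 / 2 + η) ≤ (J₂ : ℝ) - J₁ →
      ∀ m n : ℕ, 1 ≤ m → 1 ≤ n → m ≠ n → (m : ℝ) ≤ ((J₂ : ℝ) - J₁) ^ (η / 20) → (n : ℝ) ≤ ((J₂ : ℝ) - J₁) ^ (η / 20) →
        ‖S x (Real.log ((m : ℝ) / n)) J₁ J₂ α‖ ≤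
          4 * ((J₂ : ℝ) - J₁) ^ (1 - η / 20) * (1 + 1 / |Real.log ((m : ℝ) / n)|) := by
  filter_upwards [blocks hx (ε := η / 10) (by positivity) (by linarith)] with α hα
  obtain ⟨W₀, h⟩ := windows x α (ε := η / 10) (η := η) (by positivity) (by linarith) hη1 hα
  refine ⟨W₀, fun J₁ J₂ h1 h2 h3 m n h4 h5 h6 h7 h8 => ?_⟩
  have e : η / 10 / 2 = η / 20 := by ring
  rw [e] at h
  exact h J₁ J₂ h1 h2 h3 m n h4 h5 h6 h7 h8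

end

end Pool.Agent.N12.MH
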