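import Pool.Agent.R461.HM.Seq
import Pool.Agent.N12.MH.Win

/-!
# Heights along almost all dilates of an arbitrary separated sequence

Owner helper12. The uniform distribution on the heights `α x_j + β`, `J₁ ≤ j < J₂`, has small character sums in the sense of
`Pool.Agent.R461.HM.Heights`.
-/

set_option autoImplicit false

namespace Pool.Agent.N12.MH

open Complex MeasureTheory Filter Topology Set
open scoped ENNReal

noncomputable section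

/-- the window `J₁ ≤ j < J₂` of the heights `α x_j + β`: it has at least `T ^ κ` and at least `J₂ ^ ρ` terms, and all these
heights are in `[T, 2T]` -/
structure Window (x : ℕ → ℝ) (κ ρ α β T : ℝ) (J₁ J₂ : ℕ) : Prop where
  lt : J₁ < J₂
  long : T ^ κ ≤ (J₂ : ℝ) - J₁
  half : (J₂ : ℝ) ^ ρ ≤ (J₂ : ℝ) - J₁
  mem : ∀ j : ℕ, J₁ ≤ j → j < J₂ → α * x j + β ∈ Icc T (2 * T)

/-- the character sums over the windows -/
lemma small {x : ℕ → ℝ} {κ ρ : ℝ} (hκ : 0 < κ) (hρ : 1 / 2 < ρ) {α W₀ : ℝ}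
    (h : ∀ J₁ J₂ : ℕ, J₁ < J₂ → W₀ ≤ (J₂ : ℝ) - J₁ → (J₂ : ℝ) ^ (1 / 2 + (ρ - 1 / 2)) ≤ (J₂ : ℝ) - J₁ →
      ∀ m n : ℕ, 1 ≤ m → 1 ≤ n → m ≠ n → (m : ℝ) ≤ ((J₂ : ℝ) - J₁) ^ ((ρ - 1 / 2) / 20) →
        (n : ℝ) ≤ ((J₂ : ℝ) - J₁) ^ ((ρ - 1 / 2) / 20) →
        ‖S x (Real.log ((m : ℝ) / n)) J₁ J₂ α‖ ≤
          4 * ((J₂ : ℝ) - J₁) ^ (1 - (ρ - 1 / 2) / 20) * (1 + 1 / |Real.log ((m : ℝ) / n)|)) :
    ∃ T₀ : ℝ, ∀ T : ℝ, T₀ ≤ T → ∀ (J₁ J₂ : ℕ) (β : ℝ), Window x κ ρ α β T J₁ J₂ →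
      ∀ m n : ℕ, 1 ≤ m → 1 ≤ n → m ≠ n → (m : ℝ) * n ≤ T ^ (2 * (κ * (ρ - 1 / 2) / 80)) →
        ‖∑ j ∈ Finset.range (J₂ - J₁), exp (I * (((α * x (J₁ + j) + β : ℝ) : ℂ) * Real.log (m / n)))‖ ≤
          ((J₂ - J₁ : ℕ) : ℝ) * (T ^ (-(κ * (ρ - 1 / 2) / 40)) * (1 + 1 / |Real.log (m / n)|)) := by
  obtain ⟨η, hη⟩ : ∃ η : ℝ, η = ρ - 1 / 2 := ⟨_, rfl⟩
  rw [← hη] at h ⊢
  have hη0 : 0 < η := by rw [hη]; linarith
  have e12 : 1 / 2 + η = ρ := by rw [hη]; ring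
  rw [e12] at h
  refine ⟨max (max 1 ((max W₀ 1) ^ (1 / κ))) ((4 : ℝ) ^ (1 / (κ * η / 40))), fun T hT J₁ J₂ β hw m n hm hn hmn hY => ?_⟩
  have hT1 : 1 ≤ T := (le_max_left _ _).trans ((le_max_left _ _).trans hT)
  have hTW : (max W₀ 1) ^ (1 / κ) ≤ T := (le_max_right _ _).trans ((le_max_left _ _).trans hT)
  have hT4 : (4 : ℝ) ^ (1 / (κ * η / 40)) ≤ T := (le_max_right _ _).trans hT
  have hT0 : 0 < T := by linarith
  obtain ⟨W, hW⟩ : ∃ W : ℝ, W = (J₂ : ℝ) - J₁ := ⟨_, rfl⟩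
  have hWJ : ((J₂ - J₁ : ℕ) : ℝ) = W := by rw [hW, Nat.cast_sub hw.lt.le]
  have hlong := hw.long
  have hhalf := hw.half
  rw [← hW] at hlong hhalf
  have hW1 : 1 ≤ W := (Real.one_le_rpow hT1 hκ.le).trans hlong
  have hW0 : 0 < W := by linarith
  have hWW : W₀ ≤ W := by
    have h1 : ((max W₀ 1) ^ (1 / κ)) ^ κ ≤ T ^ κ := Real.rpow_le_rpow (by positivity) hTW hκ.le
    rw [← Real.rpow_mul (by positivity), one_div_mul_cancel hκ.ne', Real.rpow_one] at h1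
    exact (le_max_left _ _).trans (h1.trans hlong)
  have hTpow : T ^ (2 * (κ * η / 80)) ≤ W ^ (η / 20) := by
    have h1 : (T ^ κ) ^ (η / 40) ≤ W ^ (η / 40) := Real.rpow_le_rpow (by positivity) hlong (by positivity)
    rw [← Real.rpow_mul hT0.le] at h1
    have e : 2 * (κ * η / 80) = κ * (η / 40) := by ring
    rw [e]
    exact h1.trans (Real.rpow_le_rpow_of_exponent_le hW1 (by linarith))
  have hm1 : (1 : ℝ) ≤ m := by exact_mod_cast hm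
  have hn1 : (1 : ℝ) ≤ n := by exact_mod_cast hn
  have hmW : (m : ℝ) ≤ W ^ (η / 20) := by
    have : (m : ℝ) ≤ m * n := by nlinarith
    exact this.trans (hY.trans hTpow)
  have hnW : (n : ℝ) ≤ W ^ (η / 20) := by
    have : (n : ℝ) ≤ m * n := by nlinarith
    exact this.trans (hY.trans hTpow)
  have h1 := h J₁ J₂ hw.lt (by rw [← hW]; exact hWW) (by rw [← hW]; exact hhalf) m n hm hn hmn (by rw [← hW]; exact hmW)
    (by rw [← hW]; exact hnW)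
  rw [← hW] at h1
  have h2 : ∑ j ∈ Finset.range (J₂ - J₁), exp (I * (((α * x (J₁ + j) + β : ℝ) : ℂ) * Real.log (m / n))) =
      exp (I * ((β * Real.log ((m : ℝ) / n) : ℝ) : ℂ)) * S x (Real.log ((m : ℝ) / n)) J₁ J₂ α := by
    unfold S
    rw [Finset.sum_Ico_eq_sum_range, Finset.mul_sum]
    refine Finset.sum_congr rfl fun j _ => ?_
    rw [← Complex.exp_add]
    congr 1
    push_cast
    ring
  rw [h2, norm_mul, norm_e, one_mul, hWJ]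
  refine h1.trans ?_
  have hw0 : 0 ≤ 1 + 1 / |Real.log ((m : ℝ) / n)| := by positivity
  rw [← mul_assoc]
  refine mul_le_mul_of_nonneg_right ?_ hw0
  have e2 : W ^ (1 - η / 20) = W * W ^ (-(η / 20)) := by
    nth_rewrite 2 [← Real.rpow_one W]
    rw [← Real.rpow_add hW0]
    congr 1
  rw [e2]
  have h3 : 4 * W ^ (-(η / 20)) ≤ T ^ (-(κ * η / 40)) := by
    have h4 : W ^ (-(η / 20)) ≤ T ^ (-(κ * η / 20)) := by
      rw [Real.rpow_neg hW0.le, Real.rpow_neg hT0.le]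
      refine inv_anti₀ (by positivity) ?_
      have h5 : (T ^ κ) ^ (η / 20) ≤ W ^ (η / 20) := Real.rpow_le_rpow (by positivity) hlong (by positivity)
      rw [← Real.rpow_mul hT0.le] at h5
      have e : κ * η / 20 = κ * (η / 20) := by ring
      rw [e]
      exact h5
    have h6 : 4 ≤ T ^ (κ * η / 40) := by
      have h7 : ((4 : ℝ) ^ (1 / (κ * η / 40))) ^ (κ * η / 40) ≤ T ^ (κ * η / 40) :=
        Real.rpow_le_rpow (by positivity) hT4 (by positivity)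
      rwa [← Real.rpow_mul (by norm_num), one_div_mul_cancel (by positivity), Real.rpow_one] at h7
    calc 4 * W ^ (-(η / 20)) ≤ T ^ (κ * η / 40) * T ^ (-(κ * η / 20)) :=
          mul_le_mul h6 h4 (by positivity) (by positivity)
      _ = T ^ (-(κ * η / 40)) := by
          rw [← Real.rpow_add hT0]
          congr 1
          ring
  calc 4 * (W * W ^ (-(η / 20))) = W * (4 * W ^ (-(η / 20))) := by ring
    _ ≤ W * T ^ (-(κ * η / 40)) := mul_le_mul_of_nonneg_left h3 hW0.le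

/-- **Heights.** -/
theorem heights_ae {x : ℕ → ℝ} (hx : ∀ j, x j + 1 ≤ x (j + 1)) {κ ρ : ℝ} (hκ : 0 < κ) (hρ : 1 / 2 < ρ) (hρ1 : ρ ≤ 1) :
    ∀ᵐ α : ℝ, ∃ T₀ : ℝ, ∀ T : ℝ, T₀ ≤ T → ∀ (J₁ J₂ : ℕ) (β : ℝ), Window x κ ρ α β T J₁ J₂ →
      Pool.Agent.R461.HM.Heights T (T ^ (2 * (κ * (ρ - 1 / 2) / 80))) (T ^ (-(κ * (ρ - 1 / 2) / 40)))
        (Pool.Agent.R461.HM.unif (J₂ - J₁) fun j => α * x (J₁ + j) + β) := by
  filter_upwards [windows_ae hx (η := ρ - 1 / 2) (by linarith) (by linarith)] with α hα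
  obtain ⟨W₀, hα⟩ := hα
  obtain ⟨T₂, hsm⟩ := small hκ hρ hα
  refine ⟨T₂, fun T hT J₁ J₂ β hw => ?_⟩
  have hJ : 1 ≤ J₂ - J₁ := by
    have := hw.lt
    omega
  exact Pool.Agent.R461.HM.unif_heights hJ (fun j hj => hw.mem (J₁ + j) (by omega) (by omega))
    (fun m n hm hn hmn hY => hsm T hT J₁ J₂ β hw m n hm hn hmn hY)

end

end Pool.Agent.N12.MH
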