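import Mathlib

/-!
# Exponential sums along dilates of separated sequences, uniformly in the frequency

Owner helper12. Let `x 0, x 1, …` be real numbers with `x n + 1 ≤ x (n + 1)`. For almost every real `α` the sums of
`exp (i α x_j λ)` over dyadic blocks of `j`, and then over all windows `J₁ ≤ j < J₂` with `J₂ - J₁ ≥ J₂ ^ (1 / 2 + η)`, are
small by a power of the length of the window, for all `λ = log (m / n)` with `m`, `n` at most a small power of it.
-/

set_option autoImplicit false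

namespace Pool.Agent.N12.MH

open MeasureTheory Filter Topology Finset

noncomputable section

/-- the exponential sum over `a ≤ j < b` -/
def S (x : ℕ → ℝ) (lam : ℝ) (a b : ℕ) (α : ℝ) : ℂ :=
  ∑ j ∈ Ico a b, Complex.exp (Complex.I * ((α * (x j * lam) : ℝ) : ℂ))

lemma norm_e (r : ℝ) : ‖Complex.exp (Complex.I * (r : ℂ))‖ = 1 := by
  rw [mul_comm, Complex.norm_exp_ofReal_mul_I]

lemma S_cont (x : ℕ → ℝ) (lam : ℝ) (a b : ℕ) : Continuous (S x lam a b) := by
  unfold S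
  fun_prop

lemma S_norm_le (x : ℕ → ℝ) (lam : ℝ) (a b : ℕ) (α : ℝ) : ‖S x lam a b α‖ ≤ ((b - a : ℕ) : ℝ) := by
  unfold S
  refine (norm_sum_le _ _).trans ?_
  simp only [norm_e, sum_const, Nat.card_Ico, nsmul_eq_mul, mul_one]
  exact le_rfl

/-- the integral of one character -/
lemma int_e (A c : ℝ) (hc : c ≠ 0) : ‖∫ α in A..(A + 1), Complex.exp (Complex.I * ((α * c : ℝ) : ℂ))‖ ≤ 2 / |c| := by
  have hcI : (Complex.I * (c : ℂ)) ≠ 0 := mul_ne_zero Complex.I_ne_zero (Complex.ofReal_ne_zero.2 hc)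
  have h1 : (fun α : ℝ => Complex.exp (Complex.I * ((α * c : ℝ) : ℂ))) =
      fun α : ℝ => Complex.exp ((Complex.I * (c : ℂ)) * (α : ℂ)) := by
    funext α
    congr 1
    push_cast
    ring
  rw [h1, integral_exp_mul_complex hcI, norm_div, norm_mul, Complex.norm_I, one_mul, Complex.norm_real, Real.norm_eq_abs]
  have h2 : ∀ r : ℝ, ‖Complex.exp (Complex.I * (c : ℂ) * (r : ℂ))‖ = 1 := by
    intro r
    have : Complex.I * (c : ℂ) * (r : ℂ) = Complex.I * ((c * r : ℝ) : ℂ) := by push_cast; ring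
    rw [this, norm_e]
  have h3 : ‖Complex.exp (Complex.I * (c : ℂ) * ((A + 1 : ℝ) : ℂ)) - Complex.exp (Complex.I * (c : ℂ) * (A : ℂ))‖ ≤ 2 := by
    refine (norm_sub_le _ _).trans ?_
    rw [h2, h2]
    norm_num
  exact div_le_div_of_nonneg_right h3 (abs_nonneg c)

lemma int_e_one (A c : ℝ) : ‖∫ α in A..(A + 1), Complex.exp (Complex.I * ((α * c : ℝ) : ℂ))‖ ≤ 1 := by
  have h := intervalIntegral.norm_integral_le_of_norm_le_const (a := A) (b := A + 1) (C := 1)
    (f := fun α : ℝ => Complex.exp (Complex.I * ((α * c : ℝ) : ℂ))) (fun α _ => (norm_e _).le)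
  simpa using h

lemma sep {x : ℕ → ℝ} (hx : ∀ n, x n + 1 ≤ x (n + 1)) {i j : ℕ} (hij : i ≤ j) : ((j : ℝ) - i) ≤ x j - x i := by
  induction j, hij using Nat.le_induction with
  | base => simp
  | succ j h ih =>
    have := hx j
    push_cast
    linarith

lemma har (n H : ℕ) (hn : n ≤ H) (hH : 1 ≤ H) : ∑ k ∈ range n, 1 / ((k : ℝ) + 1) ≤ 1 + Real.log H := by
  have h1 : (harmonic n : ℝ) ≤ 1 + Real.log n := harmonic_le_one_add_log n
  have h2 : (harmonic n : ℝ) = ∑ k ∈ range n, 1 / ((k : ℝ) + 1) := by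
    unfold harmonic
    push_cast
    refine sum_congr rfl fun k _ => ?_
    rw [one_div]
  have h3 : Real.log n ≤ Real.log H := by
    rcases Nat.eq_zero_or_pos n with h0 | h0
    · rw [h0, Nat.cast_zero, Real.log_zero]
      exact Real.log_nonneg (by exact_mod_cast hH)
    · exact Real.log_le_log (by exact_mod_cast h0) (by exact_mod_cast hn)
  rw [← h2]
  linarith

/-- one row of the double sum -/
lemma row {x : ℕ → ℝ} (hx : ∀ n, x n + 1 ≤ x (n + 1)) (A lam : ℝ) (hl : lam ≠ 0) (a b i : ℕ) (hi : i ∈ Ico a b) :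
    ∑ j ∈ Ico a b, ‖∫ α in A..(A + 1), Complex.exp (Complex.I * ((α * ((x i - x j) * lam) : ℝ) : ℂ))‖ ≤
      1 + 4 / |lam| * (1 + Real.log ((b - a : ℕ) : ℝ)) := by
  rw [mem_Ico] at hi
  obtain ⟨hi1, hi2⟩ := hi
  have hl' : 0 < |lam| := abs_pos.2 hl
  have hH : 1 ≤ b - a := by omega
  obtain ⟨F, hF⟩ : ∃ F : ℕ → ℝ, F = fun j => ‖∫ α in A..(A + 1), Complex.exp (Complex.I * ((α * ((x i - x j) * lam) : ℝ) : ℂ))‖ :=
    ⟨_, rfl⟩
  have hsplit : ∑ j ∈ Ico a b, F j = ∑ j ∈ Ico a i, F j + (F i + ∑ j ∈ Ico (i + 1) b, F j) := by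
    rw [← Finset.sum_Ico_consecutive F hi1 hi2.le, Finset.sum_eq_sum_Ico_succ_bot hi2]
  have hFi : F i ≤ 1 := by
    rw [hF]
    exact int_e_one _ _
  have hFj : ∀ j, x i ≠ x j → F j ≤ 2 / (|lam| * |x i - x j|) := by
    intro j hj
    rw [hF]
    have h1 : (x i - x j) * lam ≠ 0 := mul_ne_zero (sub_ne_zero.2 hj) hl
    refine (int_e A _ h1).trans (le_of_eq ?_)
    rw [abs_mul, mul_comm]
  -- left part
  have hleft : ∑ j ∈ Ico a i, F j ≤ 2 / |lam| * (1 + Real.log ((b - a : ℕ) : ℝ)) := by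
    have h1 : ∑ j ∈ Ico a i, F j ≤ ∑ j ∈ Ico a i, 2 / |lam| * (1 / ((i - j : ℕ) : ℝ)) := by
      refine sum_le_sum fun j hj => ?_
      rw [mem_Ico] at hj
      have h2 := sep hx hj.2.le
      have h3 : (1 : ℝ) ≤ ((i - j : ℕ) : ℝ) := by
        have : 1 ≤ i - j := by omega
        exact_mod_cast this
      have h4 : ((i - j : ℕ) : ℝ) = (i : ℝ) - j := by rw [Nat.cast_sub hj.2.le]
      have h5 : ((i - j : ℕ) : ℝ) ≤ |x i - x j| := by
        rw [h4]
        exact h2.trans (le_abs_self _)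
      refine (hFj j (by
        intro h6
        rw [h6, sub_self, abs_zero] at h5
        linarith)).trans ?_
      rw [div_mul_div_comm, mul_one]
      have h7 : 0 < |lam| * ((i - j : ℕ) : ℝ) := by positivity
      exact div_le_div_of_nonneg_left (by norm_num) h7 (mul_le_mul_of_nonneg_left h5 hl'.le)
    refine h1.trans ?_
    rw [← mul_sum]
    refine mul_le_mul_of_nonneg_left ?_ (by positivity)
    rw [Finset.sum_Ico_eq_sum_range, ← Finset.sum_range_reflect]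
    refine le_trans (le_of_eq ?_) (har (i - a) (b - a) (by omega) hH)
    refine sum_congr rfl fun k hk => ?_
    rw [mem_range] at hk
    have : i - (a + (i - a - 1 - k)) = k + 1 := by omega
    rw [this]
    push_cast
    rfl
  have hright : ∑ j ∈ Ico (i + 1) b, F j ≤ 2 / |lam| * (1 + Real.log ((b - a : ℕ) : ℝ)) := by
    have h1 : ∑ j ∈ Ico (i + 1) b, F j ≤ ∑ j ∈ Ico (i + 1) b, 2 / |lam| * (1 / ((j - i : ℕ) : ℝ)) := by
      refine sum_le_sum fun j hj => ?_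
      rw [mem_Ico] at hj
      have hij : i ≤ j := by omega
      have h2 := sep hx hij
      have h3 : (1 : ℝ) ≤ ((j - i : ℕ) : ℝ) := by
        have : 1 ≤ j - i := by omega
        exact_mod_cast this
      have h4 : ((j - i : ℕ) : ℝ) = (j : ℝ) - i := by rw [Nat.cast_sub hij]
      have h5 : ((j - i : ℕ) : ℝ) ≤ |x i - x j| := by
        rw [h4, abs_sub_comm]
        exact h2.trans (le_abs_self _)
      refine (hFj j (by
        intro h6
        rw [h6, sub_self, abs_zero] at h5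
        linarith)).trans ?_
      rw [div_mul_div_comm, mul_one]
      have h7 : 0 < |lam| * ((j - i : ℕ) : ℝ) := by positivity
      exact div_le_div_of_nonneg_left (by norm_num) h7 (mul_le_mul_of_nonneg_left h5 hl'.le)
    refine h1.trans ?_
    rw [← mul_sum]
    refine mul_le_mul_of_nonneg_left ?_ (by positivity)
    rw [Finset.sum_Ico_eq_sum_range]
    refine le_trans (le_of_eq ?_) (har (b - (i + 1)) (b - a) (by omega) hH)
    refine sum_congr rfl fun k hk => ?_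
    have : i + 1 + k - i = k + 1 := by omega
    rw [this]
    push_cast
    rfl
  have hgoal : ∑ j ∈ Ico a b, F j ≤ 1 + 4 / |lam| * (1 + Real.log ((b - a : ℕ) : ℝ)) := by
    rw [hsplit]
    have e : 4 / |lam| * (1 + Real.log ((b - a : ℕ) : ℝ)) = 2 / |lam| * (1 + Real.log ((b - a : ℕ) : ℝ)) +
        2 / |lam| * (1 + Real.log ((b - a : ℕ) : ℝ)) := by ring
    rw [e]
    linarith
  rw [hF] at hgoal
  exact hgoal

/-- the second moment -/
lemma second {x : ℕ → ℝ} (hx : ∀ n, x n + 1 ≤ x (n + 1)) (A lam : ℝ) (hl : lam ≠ 0) (a b : ℕ) :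
    ∫ α in A..(A + 1), ‖S x lam a b α‖ ^ 2 ≤
      ((b - a : ℕ) : ℝ) * (1 + 4 / |lam| * (1 + Real.log ((b - a : ℕ) : ℝ))) := by
  have h1 : ∀ α : ℝ, ((‖S x lam a b α‖ ^ 2 : ℝ) : ℂ) =
      ∑ i ∈ Ico a b, ∑ j ∈ Ico a b, Complex.exp (Complex.I * ((α * ((x i - x j) * lam) : ℝ) : ℂ)) := by
    intro α
    have h2 : ((‖S x lam a b α‖ ^ 2 : ℝ) : ℂ) = S x lam a b α * (starRingEnd ℂ) (S x lam a b α) := by
      rw [Complex.mul_conj, Complex.normSq_eq_norm_sq]
    rw [h2]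
    unfold S
    rw [map_sum, sum_mul_sum]
    refine sum_congr rfl fun i _ => sum_congr rfl fun j _ => ?_
    rw [← Complex.exp_conj, ← Complex.exp_add]
    congr 1
    rw [map_mul, Complex.conj_I, Complex.conj_ofReal]
    push_cast
    ring
  have h3 : ∫ α in A..(A + 1), ‖S x lam a b α‖ ^ 2 = ‖∫ α in A..(A + 1), ((‖S x lam a b α‖ ^ 2 : ℝ) : ℂ)‖ := by
    rw [intervalIntegral.integral_ofReal, Complex.norm_real, Real.norm_eq_abs, abs_of_nonneg]
    exact intervalIntegral.integral_nonneg (by linarith) fun α _ => by positivity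
  rw [h3]
  simp only [h1]
  rw [intervalIntegral.integral_finsetSum]
  · have h4 : ∀ i ∈ Ico a b, (∫ α in A..(A + 1), ∑ j ∈ Ico a b, Complex.exp (Complex.I * ((α * ((x i - x j) * lam) : ℝ) : ℂ))) =
        ∑ j ∈ Ico a b, ∫ α in A..(A + 1), Complex.exp (Complex.I * ((α * ((x i - x j) * lam) : ℝ) : ℂ)) := by
      intro i _
      rw [intervalIntegral.integral_finsetSum]
      intro j _
      exact (by fun_prop : Continuous fun α : ℝ => Complex.exp (Complex.I * ((α * ((x i - x j) * lam) : ℝ) : ℂ))).intervalIntegrable _ _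
    rw [sum_congr rfl h4]
    refine (norm_sum_le _ _).trans ?_
    refine (sum_le_sum fun i hi => (norm_sum_le _ _).trans (row hx A lam hl a b i hi)).trans ?_
    rw [sum_const, Nat.card_Ico, nsmul_eq_mul]
  · intro i _
    exact (by fun_prop : Continuous fun α : ℝ => ∑ j ∈ Ico a b, Complex.exp (Complex.I * ((α * ((x i - x j) * lam) : ℝ) : ℂ))).intervalIntegrable _ _

/-- the `α` in a unit interval at which the block sum is large -/
lemma bad_meas {x : ℕ → ℝ} (hx : ∀ n, x n + 1 ≤ x (n + 1)) (A lam : ℝ) (hl : lam ≠ 0) (a b : ℕ) (hab : a < b) {V : ℝ} (hV : 0 < V) :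
    volume {α : ℝ | α ∈ Set.Ioc A (A + 1) ∧ V * (1 + 1 / |lam|) < ‖S x lam a b α‖} ≤
      ENNReal.ofReal (4 * ((b - a : ℕ) : ℝ) * (1 + Real.log ((b - a : ℕ) : ℝ)) / V ^ 2) := by
  have hl' : 0 < |lam| := abs_pos.2 hl
  have hH : (1 : ℝ) ≤ ((b - a : ℕ) : ℝ) := by
    have : 1 ≤ b - a := by omega
    exact_mod_cast this
  have hlog : 0 ≤ Real.log ((b - a : ℕ) : ℝ) := Real.log_nonneg hH
  obtain ⟨w, hw⟩ : ∃ w : ℝ, w = 1 + 1 / |lam| := ⟨_, rfl⟩
  have hw1 : 1 ≤ w := by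
    rw [hw]
    have : 0 < 1 / |lam| := by positivity
    linarith
  obtain ⟨μ, hμ⟩ : ∃ μ : Measure ℝ, μ = volume.restrict (Set.Ioc A (A + 1)) := ⟨_, rfl⟩
  have hfin : IsFiniteMeasure μ := by
    rw [hμ]
    infer_instance
  have hint : Integrable (fun α => ‖S x lam a b α‖ ^ 2) μ := by
    rw [hμ]
    have h1 : IntervalIntegrable (fun α => ‖S x lam a b α‖ ^ 2) volume A (A + 1) :=
      ((S_cont x lam a b).norm.pow 2).intervalIntegrable _ _
    rwa [intervalIntegrable_iff_integrableOn_Ioc_of_le (by linarith)] at h1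
  have hm := mul_meas_ge_le_integral_of_nonneg (μ := μ) (f := fun α => ‖S x lam a b α‖ ^ 2)
    (Eventually.of_forall fun α => by positivity) hint ((V * w) ^ 2)
  have hI : ∫ α, ‖S x lam a b α‖ ^ 2 ∂μ ≤ 4 * ((b - a : ℕ) : ℝ) * (1 + Real.log ((b - a : ℕ) : ℝ)) * w := by
    have h1 := second hx A lam hl a b
    rw [intervalIntegral.integral_of_le (by linarith), ← hμ] at h1
    refine h1.trans ?_
    have h2 : 1 + 4 / |lam| * (1 + Real.log ((b - a : ℕ) : ℝ)) ≤ 4 * (1 + Real.log ((b - a : ℕ) : ℝ)) * w := by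
      rw [hw]
      have e : 4 * (1 + Real.log ((b - a : ℕ) : ℝ)) * (1 + 1 / |lam|) =
          4 * (1 + Real.log ((b - a : ℕ) : ℝ)) + 4 / |lam| * (1 + Real.log ((b - a : ℕ) : ℝ)) := by
        field_simp
      rw [e]
      linarith
    calc ((b - a : ℕ) : ℝ) * (1 + 4 / |lam| * (1 + Real.log ((b - a : ℕ) : ℝ)))
        ≤ ((b - a : ℕ) : ℝ) * (4 * (1 + Real.log ((b - a : ℕ) : ℝ)) * w) := mul_le_mul_of_nonneg_left h2 (by linarith)
      _ = _ := by ring
  have hVw : 0 < (V * w) ^ 2 := by positivity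
  have h5 : μ.real {α | (V * w) ^ 2 ≤ ‖S x lam a b α‖ ^ 2} ≤
      4 * ((b - a : ℕ) : ℝ) * (1 + Real.log ((b - a : ℕ) : ℝ)) / V ^ 2 := by
    have h6 := hm.trans hI
    rw [mul_comm, ← le_div_iff₀ hVw] at h6
    refine h6.trans ?_
    rw [div_le_div_iff₀ hVw (by positivity)]
    have h7 : w ≤ w ^ 2 := by nlinarith
    have h8 : 0 ≤ 4 * ((b - a : ℕ) : ℝ) * (1 + Real.log ((b - a : ℕ) : ℝ)) * V ^ 2 := by positivity
    calc 4 * ((b - a : ℕ) : ℝ) * (1 + Real.log ((b - a : ℕ) : ℝ)) * w * V ^ 2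
        = 4 * ((b - a : ℕ) : ℝ) * (1 + Real.log ((b - a : ℕ) : ℝ)) * V ^ 2 * w := by ring
      _ ≤ 4 * ((b - a : ℕ) : ℝ) * (1 + Real.log ((b - a : ℕ) : ℝ)) * V ^ 2 * w ^ 2 := mul_le_mul_of_nonneg_left h7 h8
      _ = _ := by ring
  have hsub : {α : ℝ | α ∈ Set.Ioc A (A + 1) ∧ V * (1 + 1 / |lam|) < ‖S x lam a b α‖} ⊆
      {α | (V * w) ^ 2 ≤ ‖S x lam a b α‖ ^ 2} ∩ Set.Ioc A (A + 1) := by
    rintro α ⟨h1, h2⟩
    refine ⟨?_, h1⟩
    show (V * w) ^ 2 ≤ ‖S x lam a b α‖ ^ 2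
    rw [← hw] at h2
    exact pow_le_pow_left₀ (by positivity) h2.le 2
  calc volume {α : ℝ | α ∈ Set.Ioc A (A + 1) ∧ V * (1 + 1 / |lam|) < ‖S x lam a b α‖}
      ≤ volume ({α | (V * w) ^ 2 ≤ ‖S x lam a b α‖ ^ 2} ∩ Set.Ioc A (A + 1)) := measure_mono hsub
    _ = μ {α | (V * w) ^ 2 ≤ ‖S x lam a b α‖ ^ 2} := by
        rw [hμ, Measure.restrict_apply' measurableSet_Ioc]
    _ = ENNReal.ofReal (μ.real {α | (V * w) ^ 2 ≤ ‖S x lam a b α‖ ^ 2}) := by
        rw [ofReal_measureReal]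
    _ ≤ _ := ENNReal.ofReal_le_ofReal h5

end

end Pool.Agent.N12.MH
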